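import Mathlib

/-!
# LCH/Growth: the traces of `u ^ j v`
-/

namespace Pool.Agent.LCH

open Filter

/-- The larger root of `(Y - 2 - j s₁) ^ 2 = j ^ 2 s₂ (Y + 2)`. -/
noncomputable def Yf (s₁ s₂ j : ℝ) : ℝ :=
  (4 + 2 * j * s₁ + j ^ 2 * s₂ + √(j ^ 2 * (s₂ * (j ^ 2 * s₂ + 4 * j * s₁ + 16)))) / 2

section

variable {s₁ s₂ : ℝ} (h2 : 0 < s₂) (hcs : s₁ ^ 2 ≤ 4 * s₂) {j : ℝ} (hj0 : 0 ≤ j)
include h2 hcs hj0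

theorem lower (c : ℝ) (hc : 0 ≤ c) : (j * √s₂ - c) ^ 2 - c ^ 2 ≤ c * j * s₁ + j ^ 2 * s₂ := by
  have hs : √s₂ ^ 2 = s₂ := Real.sq_sqrt h2.le
  have hs0 : 0 < √s₂ := Real.sqrt_pos.mpr h2
  have h1 : -(2 * √s₂) ≤ s₁ := by
    have : s₁ ^ 2 ≤ (2 * √s₂) ^ 2 := by nlinarith
    exact (abs_le_of_sq_le_sq' this (by positivity)).1
  have h3 : 0 ≤ c * j * (s₁ + 2 * √s₂) := by
    have : 0 ≤ s₁ + 2 * √s₂ := by linarith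
    positivity
  nlinarith

theorem disc_nonneg : 0 ≤ j ^ 2 * (s₂ * (j ^ 2 * s₂ + 4 * j * s₁ + 16)) := by
  have h := lower h2 hcs hj0 4 (by norm_num)
  have h3 : 0 ≤ j ^ 2 * s₂ + 4 * j * s₁ + 16 := by nlinarith [sq_nonneg (j * √s₂ - 4)]
  positivity

theorem Yf_eq : (Yf s₁ s₂ j - 2 - j * s₁) ^ 2 = j ^ 2 * s₂ * (Yf s₁ s₂ j + 2) := by
  have hs := Real.sq_sqrt (disc_nonneg h2 hcs hj0)
  unfold Yf
  set r := √(j ^ 2 * (s₂ * (j ^ 2 * s₂ + 4 * j * s₁ + 16)))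
  linear_combination (1 / 4) * hs

theorem Yf_lower : (j * √s₂ - 2) ^ 2 / 2 ≤ Yf s₁ s₂ j := by
  have h := lower h2 hcs hj0 2 (by norm_num)
  have hr : 0 ≤ √(j ^ 2 * (s₂ * (j ^ 2 * s₂ + 4 * j * s₁ + 16))) := Real.sqrt_nonneg _
  unfold Yf
  linarith

theorem Yf_gt (hj : 4 < j * √s₂) : 2 < Yf s₁ s₂ j := by
  have h := Yf_lower h2 hcs hj0
  nlinarith

end

/-- The two eigenvalues with sum of the eigenvalue and its inverse equal to `Y`. -/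
theorem exists_R {Y : ℝ} (hY : 2 < Y) : ∃ R : ℝ, 1 < R ∧ R + R⁻¹ = Y := by
  have hd : 0 < Y ^ 2 - 4 := by nlinarith
  have hs : √(Y ^ 2 - 4) ^ 2 = Y ^ 2 - 4 := Real.sq_sqrt hd.le
  have hs0 : 0 < √(Y ^ 2 - 4) := Real.sqrt_pos.mpr hd
  have h0 : (Y + √(Y ^ 2 - 4)) / 2 ≠ 0 := by positivity
  refine ⟨(Y + √(Y ^ 2 - 4)) / 2, by linarith, ?_⟩
  have h1 : ((Y + √(Y ^ 2 - 4)) / 2)⁻¹ = (Y - √(Y ^ 2 - 4)) / 2 := by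
    apply inv_eq_of_mul_eq_one_right
    linear_combination (-1 / 4) * hs
  rw [h1]
  ring

/-- The equation for the eigenvalue. -/
theorem eig_eq {s₁ s₂ j R : ℝ} (hR : R ≠ 0) (h : (R + R⁻¹ - 2 - j * s₁) ^ 2 = j ^ 2 * s₂ * (R + R⁻¹ + 2)) :
    ((1 - R) ^ 2 - j * s₁ * R) ^ 2 = j ^ 2 * s₂ * R * (1 + R) ^ 2 := by
  have e1 : (1 - R) ^ 2 - j * s₁ * R = R * (R + R⁻¹ - 2 - j * s₁) := by
    field_simp
    ring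
  have e2 : j ^ 2 * s₂ * R * (1 + R) ^ 2 = R ^ 2 * (j ^ 2 * s₂ * (R + R⁻¹ + 2)) := by
    field_simp
    ring
  rw [e1, e2, mul_pow, h]

/-- In the real case the root is a polynomial in `j`. -/
theorem Yf_of_eq {s₁ s₂ j : ℝ} (h2 : 0 < s₂) (hcs : s₁ ^ 2 = 4 * s₂) (hj0 : 0 ≤ j) (hj : 4 < j * √s₂) :
    Yf s₁ s₂ j = 2 + 2 * j * s₁ + j ^ 2 * s₂ := by
  have hl := lower h2 hcs.le hj0 2 (by norm_num)
  have hs : √s₂ ^ 2 = s₂ := Real.sq_sqrt h2.le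
  have hpos : 0 ≤ 2 * j * s₁ + j ^ 2 * s₂ := by nlinarith
  have hsq : j ^ 2 * (s₂ * (j ^ 2 * s₂ + 4 * j * s₁ + 16)) = (2 * j * s₁ + j ^ 2 * s₂) ^ 2 := by
    linear_combination -4 * j ^ 2 * hcs
  unfold Yf
  rw [hsq, Real.sqrt_sq hpos]
  ring

end Pool.Agent.LCH
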