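import Pool.Agent.LCH.Herm

/-!
# LCH/Unim: eigenvalues of isometries of a form which is definite at some other place
-/

namespace Pool.Agent.LCH

open Polynomial Matrix
open scoped ComplexOrder

/-- The embedding of `ℝ` or `ℂ` in `ℂ`. -/
noncomputable def toC (𝕜 : Type*) [RCLike 𝕜] : 𝕜 →+* ℂ where
  toFun x := (RCLike.re x : ℂ) + (RCLike.im x : ℂ) * Complex.I
  map_one' := by simp
  map_zero' := by simp
  map_add' x y := by
    simp only [map_add, Complex.ofReal_add]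
    ring
  map_mul' x y := by
    simp only [RCLike.mul_re, RCLike.mul_im, Complex.ofReal_sub, Complex.ofReal_add, Complex.ofReal_mul]
    linear_combination (-(RCLike.im x : ℂ) * (RCLike.im y : ℂ)) * Complex.I_mul_I

theorem toC_apply {𝕜 : Type*} [RCLike 𝕜] (x : 𝕜) : toC 𝕜 x = (RCLike.re x : ℂ) + (RCLike.im x : ℂ) * Complex.I := rfl

theorem toC_star {𝕜 : Type*} [RCLike 𝕜] (x : 𝕜) : toC 𝕜 (star x) = star (toC 𝕜 x) := by
  apply Complex.ext
  · simp [toC_apply]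
  · simp [toC_apply]

theorem toC_ofReal {𝕜 : Type*} [RCLike 𝕜] (r : ℝ) : toC 𝕜 (r : 𝕜) = (r : ℂ) := by
  simp [toC_apply]

theorem norm_toC {𝕜 : Type*} [RCLike 𝕜] (x : 𝕜) : ‖toC 𝕜 x‖ = ‖x‖ := by
  have h1 : ‖toC 𝕜 x‖ ^ 2 = ‖x‖ ^ 2 := by
    rw [← Complex.normSq_eq_norm_sq, Complex.normSq_apply, ← RCLike.normSq_eq_def', RCLike.normSq_apply]
    simp [toC_apply]
  exact (pow_left_inj₀ (norm_nonneg _) (norm_nonneg _) two_ne_zero).mp h1

section

variable {L A : Type*} [Field L] [Field A] [Algebra L A]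

/-- `x` is the image of an element `a` of `A` such that `|log ‖α a‖| ≤ κ log x` for all the extensions `α` of `σ`. -/
def Contr (ψ : A →+* ℂ) (σ : L →+* ℂ) (κ x : ℝ) : Prop :=
  ∃ a : A, ψ a = (x : ℂ) ∧ ∀ α : A →+* ℂ, (∀ l, α (algebraMap L A l) = σ l) → |Real.log ‖α a‖| ≤ κ * Real.log x

theorem Contr.mono {ψ : A →+* ℂ} {σ : L →+* ℂ} {κ κ' x : ℝ} (h : Contr ψ σ κ x) (hκ : κ ≤ κ') (hx : 1 ≤ x) :
    Contr ψ σ κ' x := by
  obtain ⟨a, ha, ha'⟩ := h
  refine ⟨a, ha, fun α hα => (ha' α hα).trans ?_⟩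
  have := Real.log_nonneg hx
  gcongr

theorem root_lift [IsAlgClosed A] (ψ : A →+* ℂ) {p : A[X]} (hp : p ≠ 0) {μ : ℂ} (hμ : (p.map ψ).eval μ = 0) :
    ∃ a, p.eval a = 0 ∧ ψ a = μ := by
  have h1 : μ ∈ (p.map ψ).roots := by
    rw [mem_roots (by rwa [Polynomial.map_ne_zero_iff ψ.injective])]
    exact hμ
  rw [(IsAlgClosed.splits p).roots_map, Multiset.mem_map] at h1
  obtain ⟨a, ha, rfl⟩ := h1
  exact ⟨a, (mem_roots hp).mp ha, rfl⟩

/-- From a power to the number itself. -/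
theorem Contr.of_pow [IsAlgClosed A] {ψ : A →+* ℂ} {σ : L →+* ℂ} {κ x y : ℝ} {n m : ℕ} (hn : n ≠ 0)
    (hxy : x ^ n = y ^ m) (hy : Contr ψ σ κ y) : Contr ψ σ κ x := by
  obtain ⟨b, hb, hb'⟩ := hy
  have hp : (X ^ n - C (b ^ m) : A[X]) ≠ 0 := X_pow_sub_C_ne_zero (Nat.pos_of_ne_zero hn) _
  have hxy' : (x : ℂ) ^ n = (y : ℂ) ^ m := by exact_mod_cast congrArg (fun z : ℝ => (z : ℂ)) hxy
  obtain ⟨a, ha, ha'⟩ := root_lift ψ hp (μ := x) (by simp [hb, hxy'])
  refine ⟨a, ha', fun α hα => ?_⟩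
  have h1 : a ^ n = b ^ m := by
    simp only [eval_sub, eval_pow, eval_X, eval_C] at ha
    exact sub_eq_zero.mp ha
  have h2 := hb' α hα
  have h3 : (n : ℝ) * Real.log ‖α a‖ = m * Real.log ‖α b‖ := by
    rw [← Real.log_pow, ← Real.log_pow, ← norm_pow, ← norm_pow, ← map_pow, ← map_pow, h1]
  have h4 : (n : ℝ) * Real.log x = m * Real.log y := by
    rw [← Real.log_pow, ← Real.log_pow, hxy]
  have hn0 : (0 : ℝ) < n := by exact_mod_cast Nat.pos_of_ne_zero hn
  have h5 : (n : ℝ) * |Real.log ‖α a‖| ≤ n * (κ * Real.log x) := by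
    calc (n : ℝ) * |Real.log ‖α a‖| = |(n : ℝ) * Real.log ‖α a‖| := by rw [abs_mul, abs_of_pos hn0]
      _ = m * |Real.log ‖α b‖| := by rw [h3, abs_mul, abs_of_nonneg (Nat.cast_nonneg m)]
      _ ≤ m * (κ * Real.log y) := by gcongr
      _ = κ * (m * Real.log y) := by ring
      _ = n * (κ * Real.log x) := by rw [← h4]; ring
  exact le_of_mul_le_mul_left h5 hn0

end

/-- The eigenvalues of an isometry of a definite form have absolute value `1`. -/
theorem norm_eq_one_of_posDef {ι : Type*} [Fintype ι] [DecidableEq ι] {H W : Matrix ι ι ℂ} (hH : H.PosDef)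
    (hW : Wᴴ * H * W = H) {μ : ℂ} (hμ : W.charpoly.eval μ = 0) : ‖μ‖ = 1 := by
  rw [Matrix.eval_charpoly, ← exists_mulVec_eq_zero_iff] at hμ
  obtain ⟨z, hz0, hz⟩ := hμ
  have h1 : W *ᵥ z = μ • z := by
    rw [sub_mulVec, sub_eq_zero] at hz
    rw [← hz]
    simp [Matrix.scalar_apply]
  have h2 : star z ⬝ᵥ (H *ᵥ z) = (star μ * μ) * (star z ⬝ᵥ (H *ᵥ z)) := by
    calc star z ⬝ᵥ (H *ᵥ z) = star z ⬝ᵥ ((Wᴴ * H * W) *ᵥ z) := by rw [hW]
      _ = star (W *ᵥ z) ⬝ᵥ (H *ᵥ (W *ᵥ z)) := by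
        rw [star_mulVec, Matrix.mul_assoc, ← Matrix.mulVec_mulVec, ← Matrix.mulVec_mulVec, Matrix.dotProduct_mulVec]
      _ = (star μ * μ) * (star z ⬝ᵥ (H *ᵥ z)) := by
        rw [h1, Matrix.mulVec_smul, star_smul, smul_dotProduct, dotProduct_smul, smul_eq_mul, smul_eq_mul, mul_assoc]
  have h3 : star z ⬝ᵥ (H *ᵥ z) ≠ 0 := by
    have := hH.dotProduct_mulVec_pos hz0
    exact this.ne'
  have h4 : star μ * μ = 1 := by
    apply mul_right_cancel₀ h3
    rw [← h2, one_mul]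
  have h5 : ((‖μ‖ ^ 2 : ℝ) : ℂ) = 1 := by
    rw [← Complex.normSq_eq_norm_sq, Complex.normSq_eq_conj_mul_self]
    exact h4
  have h6 : ‖μ‖ ^ 2 = 1 := by exact_mod_cast h5
  nlinarith [norm_nonneg μ]

/-- The exponential of a translation length of an isometry with coefficients in `L`. -/
theorem contr_exp {𝕜 : Type*} [RCLike 𝕜] {ι : Type*} [Fintype ι] [DecidableEq ι] {L A : Type*} [Field L] [Field A]
    [Algebra L A] [IsAlgClosed A] {c : L →+* L} {φ : L →+* 𝕜} (hφ : ∀ x, φ (c x) = star (φ x)) {σ : L →+* ℂ}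
    (hσ : ∀ x, σ (c x) = star (σ x)) {w : Matrix ι ι L} {y : ι → 𝕜} (hy : y ≠ 0) {s : 𝕜} (hs : ‖s‖ = 1) {ℓ κ : ℝ}
    (he : (w.map φ) *ᵥ y = (s * (Real.exp ℓ : ℝ)) • y)
    (hroot : ∀ ν : ℂ, ((w.charpoly).map σ).eval ν = 0 → |Real.log ‖ν‖| ≤ κ * ℓ) {ψ : A →+* ℂ}
    (hψ : ∀ l, ψ (algebraMap L A l) = toC 𝕜 (φ l)) : Contr ψ σ κ (Real.exp ℓ) := by
  -- the eigenvalue
  obtain ⟨μ, hμ⟩ : ∃ μ, μ = toC 𝕜 (s * (Real.exp ℓ : ℝ)) := ⟨_, rfl⟩
  have hμ0 : ((w.charpoly).map ((toC 𝕜).comp φ)).eval μ = 0 := by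
    rw [← Matrix.charpoly_map, Matrix.eval_charpoly, ← exists_mulVec_eq_zero_iff]
    refine ⟨fun i => toC 𝕜 (y i), ?_, ?_⟩
    · intro h0
      apply hy
      funext i
      have := congrFun h0 i
      simp only [Pi.zero_apply] at this ⊢
      exact (map_eq_zero _).mp this
    · ext i
      have h1 := congrArg (toC 𝕜) (congrFun he i)
      simp only [Matrix.mulVec, dotProduct, map_sum, map_mul, Matrix.map_apply, Pi.smul_apply, smul_eq_mul] at h1
      simp only [Matrix.sub_mulVec, Pi.sub_apply, Pi.zero_apply, sub_eq_zero]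
      have h2 : ((Matrix.scalar ι μ) *ᵥ fun i => toC 𝕜 (y i)) i = μ * toC 𝕜 (y i) := by
        simp [Matrix.scalar_apply, Matrix.mulVec_diagonal]
      rw [h2, hμ, map_mul]
      rw [← h1]
      simp [Matrix.mulVec, dotProduct]
  have hmap : ∀ p : L[X], p.map ((toC 𝕜).comp φ) = (p.map (algebraMap L A)).map ψ := by
    intro p
    rw [Polynomial.map_map]
    congr 1
    ext l
    exact (hψ l).symm
  have hp0 : (w.charpoly).map (algebraMap L A) ≠ 0 := ((Matrix.charpoly_monic w).map _).ne_zero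
  have hp0' : ((w.charpoly).map c).map (algebraMap L A) ≠ 0 := (((Matrix.charpoly_monic w).map _).map _).ne_zero
  obtain ⟨a, ha, ha'⟩ := root_lift ψ hp0 (μ := μ) (by rw [← hmap]; exact hμ0)
  obtain ⟨b, hb, hb'⟩ := root_lift ψ hp0' (μ := star μ) (by
    rw [← hmap, Polynomial.map_map]
    have h1 : ((toC 𝕜).comp φ).comp c = (starRingEnd ℂ).comp ((toC 𝕜).comp φ) := by
      ext l
      simp only [RingHom.comp_apply, hφ]
      exact toC_star _
    rw [h1, ← Polynomial.map_map, ← starRingEnd_apply, Polynomial.eval_map, Polynomial.eval₂_hom, hμ0, map_zero])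
  have hprod2 : μ * star μ = ((Real.exp ℓ : ℝ) : ℂ) ^ 2 := by
    rw [hμ, map_mul, toC_ofReal, star_mul']
    have h1 : toC 𝕜 s * star (toC 𝕜 s) = 1 := by
      have h2 : ‖toC 𝕜 s‖ = 1 := by rw [norm_toC, hs]
      rw [← starRingEnd_apply, Complex.mul_conj, Complex.normSq_eq_norm_sq, h2]
      norm_num
    have h3 : star ((Real.exp ℓ : ℝ) : ℂ) = ((Real.exp ℓ : ℝ) : ℂ) := Complex.conj_ofReal _
    rw [h3]
    linear_combination ((Real.exp ℓ : ℝ) : ℂ) ^ 2 * h1
  have hprod : Contr ψ σ κ (Real.exp ℓ ^ 2) := by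
    refine ⟨a * b, by rw [map_mul, ha', hb', hprod2]; push_cast; rfl, fun α hα => ?_⟩
    have hα' : ∀ p : L[X], (p.map (algebraMap L A)).map α = p.map σ := by
      intro p
      rw [Polynomial.map_map]
      congr 1
      ext l
      exact hα l
    have k1 : |Real.log ‖α a‖| ≤ κ * ℓ := by
      apply hroot
      rw [← hα', Polynomial.eval_map, Polynomial.eval₂_hom, ha, map_zero]
    have k2 : |Real.log ‖α b‖| ≤ κ * ℓ := by
      have h1 : (((w.charpoly).map c).map σ).eval (α b) = 0 := by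
        rw [← hα', Polynomial.eval_map, Polynomial.eval₂_hom, hb, map_zero]
      have h2 : σ.comp c = (starRingEnd ℂ).comp σ := by
        ext l
        simp only [RingHom.comp_apply, hσ, starRingEnd_apply]
      rw [Polynomial.map_map, h2, ← Polynomial.map_map] at h1
      have h3 : ((w.charpoly).map σ).eval (star (α b)) = 0 := by
        have h4 : star (((w.charpoly).map σ).eval (star (α b))) = 0 := by
          rw [← starRingEnd_apply, ← Polynomial.eval₂_hom, ← Polynomial.eval_map, starRingEnd_apply, star_star]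
          exact h1
        exact star_eq_zero.mp h4
      have := hroot _ h3
      rwa [norm_star] at this
    have ha0 : a ≠ 0 := by
      rintro rfl
      rw [map_zero] at ha'
      rw [← ha', zero_mul] at hprod2
      exact (pow_ne_zero 2 (by exact_mod_cast (Real.exp_pos ℓ).ne')) hprod2.symm
    have hb0 : b ≠ 0 := by
      rintro rfl
      rw [map_zero] at hb'
      rw [← hb', mul_zero] at hprod2
      exact (pow_ne_zero 2 (by exact_mod_cast (Real.exp_pos ℓ).ne')) hprod2.symm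
    have hαa : ‖α a‖ ≠ 0 := norm_ne_zero_iff.mpr ((map_ne_zero α).mpr ha0)
    have hαb : ‖α b‖ ≠ 0 := norm_ne_zero_iff.mpr ((map_ne_zero α).mpr hb0)
    rw [map_mul, norm_mul, Real.log_mul hαa hαb, Real.log_pow, Real.log_exp]
    refine (abs_add_le _ _).trans ?_
    push_cast
    linarith
  exact Contr.of_pow (n := 2) (m := 1) two_ne_zero (by rw [pow_one]) hprod

end Pool.Agent.LCH
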