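import Pool.Agent.LCH.NT
import Pool.Agent.LCH.Growth
import Pool.Agent.LCH.Unim

/-!
# LCH/Core: the number theoretic contradiction in the real case
-/

namespace Pool.Agent.LCH

open Polynomial

theorem exists_ext {L A M : Type*} [Field L] [Field A] [Algebra L A] [Algebra.IsAlgebraic L A] [Field M]
    [IsAlgClosed M] (σ : L →+* M) : ∃ α : A →+* M, ∀ l, α (algebraMap L A l) = σ l := by
  let := σ.toAlgebra
  exact ⟨(IsAlgClosed.lift : A →ₐ[L] M).toRingHom, fun l => AlgHom.commutes (IsAlgClosed.lift : A →ₐ[L] M) l⟩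

theorem rpow_small {κ C c : ℝ} (hκ0 : 0 ≤ κ) (hκ : κ < 1) (hC : 0 < C) (hc : 0 < c) :
    ∃ T : ℝ, 1 ≤ T ∧ ∀ t, T ≤ t → 4 * (C * t) ^ κ < c * t := by
  have h1 := (tendsto_rpow_atTop (y := 1 - κ) (by linarith)).eventually_gt_atTop (4 * C ^ κ / c)
  obtain ⟨T, hT⟩ := Filter.eventually_atTop.mp h1
  refine ⟨max T 1, le_max_right _ _, fun t ht => ?_⟩
  have ht1 : 1 ≤ t := (le_max_right _ _).trans ht
  have ht0 : 0 < t := by linarith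
  have h2 := hT t ((le_max_left _ _).trans ht)
  rw [div_lt_iff₀ hc] at h2
  rw [Real.mul_rpow hC.le ht0.le]
  have h3 : t ^ κ * t ^ (1 - κ) = t := by
    rw [← Real.rpow_add ht0]
    simp
  have h4 : 0 < t ^ κ := Real.rpow_pos_of_pos ht0 κ
  calc 4 * (C ^ κ * t ^ κ) = (4 * C ^ κ) * t ^ κ := by ring
    _ < (t ^ (1 - κ) * c) * t ^ κ := by gcongr
    _ = c * (t ^ κ * t ^ (1 - κ)) := by ring
    _ = c * t := by rw [h3]

/-- A polynomial of degree two grows fast. -/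
theorem exists_large (c x y : ℂ) (hy : y ≠ 0) {κ C : ℝ} (hκ0 : 0 ≤ κ) (hκ : κ < 1) (hC : 0 < C) :
    ∃ J : ℕ, ∀ j : ℕ, J ≤ j → 4 * (C * (j : ℝ) ^ 2) ^ κ < ‖c + 2 * j * x + (j : ℂ) ^ 2 * y‖ := by
  have hy0 : 0 < ‖y‖ := norm_pos_iff.mpr hy
  obtain ⟨T, hT1, hT⟩ := rpow_small hκ0 hκ hC (half_pos hy0)
  obtain ⟨J, hJ⟩ := exists_nat_ge ((2 * ‖x‖ + ‖c‖) / (‖y‖ / 2))
  obtain ⟨J', hJ'⟩ := exists_nat_ge T
  refine ⟨max J (max J' 1), fun j hj => ?_⟩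
  have hj1 : (1 : ℝ) ≤ j := by exact_mod_cast (show 1 ≤ j by omega)
  have hjJ : (2 * ‖x‖ + ‖c‖) / (‖y‖ / 2) ≤ j := hJ.trans (by exact_mod_cast (show J ≤ j by omega))
  have h1 : 2 * ‖x‖ + ‖c‖ ≤ j * (‖y‖ / 2) := by rwa [div_le_iff₀ (half_pos hy0)] at hjJ
  have hjT : T ≤ (j : ℝ) ^ 2 := by
    have : (J' : ℝ) ≤ j := by exact_mod_cast (show J' ≤ j by omega)
    nlinarith
  have h0 := hT _ hjT
  have h2 : ‖(j : ℂ) ^ 2 * y‖ ≤ ‖c + 2 * j * x + (j : ℂ) ^ 2 * y‖ + ‖c + 2 * j * x‖ := by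
    have : (j : ℂ) ^ 2 * y = (c + 2 * j * x + (j : ℂ) ^ 2 * y) - (c + 2 * j * x) := by ring
    calc ‖(j : ℂ) ^ 2 * y‖ = ‖(c + 2 * j * x + (j : ℂ) ^ 2 * y) - (c + 2 * j * x)‖ := by rw [← this]
      _ ≤ _ := norm_sub_le _ _
  have h3 : ‖c + 2 * j * x‖ ≤ ‖c‖ + 2 * j * ‖x‖ := by
    refine (norm_add_le _ _).trans ?_
    simp
  have h4 : ‖(j : ℂ) ^ 2 * y‖ = (j : ℝ) ^ 2 * ‖y‖ := by simp
  rw [h4] at h2
  have h5 : ‖c‖ + 2 * j * ‖x‖ ≤ (j : ℝ) ^ 2 * (‖y‖ / 2) := by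
    have h6 : (j : ℝ) * (2 * ‖x‖ + ‖c‖) ≤ j * (j * (‖y‖ / 2)) := by gcongr
    have h7 : ‖c‖ ≤ (j : ℝ) * ‖c‖ := le_mul_of_one_le_left (norm_nonneg c) hj1
    nlinarith
  nlinarith

theorem exists_large' (y : ℂ) (hy : y ≠ 0) {κ B : ℝ} (hκ0 : 0 ≤ κ) (hκ : κ < 1) (hB : 0 < B) :
    ∃ K : ℕ, 1 ≤ K ∧ ∀ k : ℕ, K ≤ k → 2 * (2 + k * B) ^ κ < ‖2 + (k : ℂ) * y‖ := by
  have hy0 : 0 < ‖y‖ := norm_pos_iff.mpr hy
  obtain ⟨T, hT1, hT⟩ := rpow_small (C := 2 + B) hκ0 hκ (by linarith) (half_pos hy0)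
  obtain ⟨J, hJ⟩ := exists_nat_ge (2 / (‖y‖ / 2))
  obtain ⟨J', hJ'⟩ := exists_nat_ge T
  refine ⟨max J (max J' 1), by omega, fun k hk => ?_⟩
  have hk1 : (1 : ℝ) ≤ k := by exact_mod_cast (show 1 ≤ k by omega)
  have h1 : 2 ≤ k * (‖y‖ / 2) := by
    have : 2 / (‖y‖ / 2) ≤ k := hJ.trans (by exact_mod_cast (show J ≤ k by omega))
    rwa [div_le_iff₀ (half_pos hy0)] at this
  have h0 := hT k (hJ'.trans (by exact_mod_cast (show J' ≤ k by omega)))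
  have h2 : (2 + k * B) ^ κ ≤ ((2 + B) * k) ^ κ := by
    apply Real.rpow_le_rpow (by positivity) _ hκ0
    nlinarith
  have h3 : 0 ≤ (2 + k * B) ^ κ := by positivity
  have h4 : ‖(k : ℂ) * y‖ ≤ ‖2 + (k : ℂ) * y‖ + ‖(2 : ℂ)‖ := by
    calc ‖(k : ℂ) * y‖ = ‖(2 + (k : ℂ) * y) - 2‖ := by congr 1; ring
      _ ≤ _ := norm_sub_le _ _
  rw [norm_mul, Complex.norm_natCast, Complex.norm_ofNat] at h4
  linarith

theorem Yf_upper {s₁ s₂ : ℝ} (h2 : 0 < s₂) {j : ℝ} (hj : 1 ≤ j) :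
    Yf s₁ s₂ j ≤ (s₂ + 3 * |s₁| + 10) * j ^ 2 := by
  have h1 : s₁ ≤ |s₁| := le_abs_self _
  have h0 := abs_nonneg s₁
  have hj2 : j ≤ j ^ 2 := by nlinarith
  have h3 : √(j ^ 2 * (s₂ * (j ^ 2 * s₂ + 4 * j * s₁ + 16))) ≤ j ^ 2 * (s₂ + 4 * |s₁| + 16) := by
    apply Real.sqrt_le_iff.mpr
    refine ⟨by positivity, ?_⟩
    have h4 : j ^ 2 * s₂ + 4 * j * s₁ + 16 ≤ j ^ 2 * (s₂ + 4 * |s₁| + 16) := by
      have : j * s₁ ≤ j ^ 2 * |s₁| := by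
        calc j * s₁ ≤ j * |s₁| := by gcongr
          _ ≤ j ^ 2 * |s₁| := by gcongr
      nlinarith
    calc j ^ 2 * (s₂ * (j ^ 2 * s₂ + 4 * j * s₁ + 16)) ≤
        j ^ 2 * ((s₂ + 4 * |s₁| + 16) * (j ^ 2 * (s₂ + 4 * |s₁| + 16))) := by
          by_cases hneg : 0 ≤ j ^ 2 * s₂ + 4 * j * s₁ + 16
          · have : s₂ * (j ^ 2 * s₂ + 4 * j * s₁ + 16) ≤
                (s₂ + 4 * |s₁| + 16) * (j ^ 2 * (s₂ + 4 * |s₁| + 16)) := by
              apply mul_le_mul (by linarith) h4 hneg (by positivity)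
            gcongr
          · push Not at hneg
            have k1 : s₂ * (j ^ 2 * s₂ + 4 * j * s₁ + 16) ≤ 0 := (mul_neg_of_pos_of_neg h2 hneg).le
            have k2 : 0 ≤ (s₂ + 4 * |s₁| + 16) * (j ^ 2 * (s₂ + 4 * |s₁| + 16)) := by positivity
            have := k1.trans k2
            gcongr
      _ = (j ^ 2 * (s₂ + 4 * |s₁| + 16)) ^ 2 := by ring
  have h5 : j * s₁ ≤ j ^ 2 * |s₁| := by
    calc j * s₁ ≤ j * |s₁| := by gcongr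
      _ ≤ j ^ 2 * |s₁| := by gcongr
  have h6 : (4 : ℝ) ≤ 4 * j ^ 2 := by nlinarith
  unfold Yf
  nlinarith

section

variable {L A : Type*} [Field L] [Field A] [Algebra L A]

/-- `x` is the image of an element of `A` all of whose images under the extensions of `σ` have absolute value at
most `2 x ^ κ`. -/
def Bdd (ψ : A →+* ℂ) (σ : L →+* ℂ) (κ x : ℝ) : Prop :=
  ∃ a : A, ψ a = (x : ℂ) ∧ ∀ α : A →+* ℂ, (∀ l, α (algebraMap L A l) = σ l) → ‖α a‖ ≤ 2 * x ^ κ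

theorem Contr.bdd {ψ : A →+* ℂ} {σ : L →+* ℂ} {κ R : ℝ} (hκ : 0 ≤ κ) (hR1 : 1 < R) (hR : Contr ψ σ κ R) :
    Bdd ψ σ κ (R + R⁻¹) := by
  obtain ⟨a, ha, ha'⟩ := hR
  have hR0 : 0 < R := by linarith
  have hRi : 0 < R⁻¹ := inv_pos.mpr hR0
  have ha0 : a ≠ 0 := by
    rintro rfl
    rw [map_zero] at ha
    have : R = 0 := by exact_mod_cast ha.symm
    linarith
  refine ⟨a + a⁻¹, by rw [map_add, map_inv₀, ha]; push_cast; rfl, fun α hα => ?_⟩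
  have hα0 : 0 < ‖α a‖ := norm_pos_iff.mpr ((map_ne_zero α).mpr ha0)
  have h1 := abs_le.mp (ha' α hα)
  have h2 : ‖α a‖ ≤ R ^ κ := by
    rw [Real.rpow_def_of_pos hR0, mul_comm]
    exact (Real.le_exp_log _).trans (Real.exp_le_exp.mpr h1.2)
  have h3 : ‖α a‖⁻¹ ≤ R ^ κ := by
    rw [Real.rpow_def_of_pos hR0, mul_comm, ← Real.exp_log (inv_pos.mpr hα0), Real.log_inv]
    exact Real.exp_le_exp.mpr (by linarith [h1.1])
  have h4 : R ^ κ ≤ (R + R⁻¹) ^ κ := Real.rpow_le_rpow hR0.le (by linarith) hκ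
  rw [map_add, map_inv₀]
  refine (norm_add_le _ _).trans ?_
  rw [norm_inv]
  linarith

theorem core [NumberField L] [Algebra.IsAlgebraic L A] [IsAlgClosed A] {I : Type*} [Finite I] (ψ : A →+* ℂ)
    (σ : I → L →+* ℂ) {s₁ s₂ κ : ℝ} (hκ0 : 0 ≤ κ) (hκ : κ < 1)
    (h2 : 0 < s₂) (hcs : s₁ ^ 2 ≤ 4 * s₂) (J : ℕ) (H : ∀ j : ℕ, J ≤ j → ∃ i, Bdd ψ (σ i) κ (Yf s₁ s₂ j)) :
    False := by
  have hs0 : 0 < √s₂ := Real.sqrt_pos.mpr h2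
  have hA0 : CharZero A := charZero_of_injective_algebraMap (algebraMap L A).injective
  -- large j
  obtain ⟨J₁, hJ₁, hJ₁'⟩ : ∃ J₁, J ≤ J₁ ∧ ∀ j : ℕ, J₁ ≤ j → 4 < j * √s₂ := by
    obtain ⟨K, hK⟩ := exists_nat_gt (4 / √s₂)
    refine ⟨max J K, le_max_left _ _, fun j hj => ?_⟩
    have : (K : ℝ) ≤ j := by exact_mod_cast (le_max_right J K).trans hj
    rw [← div_lt_iff₀ hs0]
    linarith
  -- two different values
  obtain ⟨j, k, hj, hk, hj0, hk0, hjk⟩ : ∃ j k : ℕ, J₁ ≤ j ∧ J₁ ≤ k ∧ j ≠ 0 ∧ k ≠ 0 ∧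
      Yf s₁ s₂ j < Yf s₁ s₂ k := by
    obtain ⟨K, hK⟩ := exists_nat_gt ((2 * |Yf s₁ s₂ (J₁ + 1 : ℕ)| + 4) / √s₂)
    refine ⟨J₁ + 1, max (J₁ + 1) K, by omega, by omega, by omega, by omega, ?_⟩
    have h1 : (2 * |Yf s₁ s₂ (J₁ + 1 : ℕ)| + 4) / √s₂ < ((max (J₁ + 1) K : ℕ) : ℝ) := by
      refine hK.trans_le ?_
      exact_mod_cast le_max_right _ _
    rw [div_lt_iff₀ hs0] at h1
    have h3 := Yf_lower h2 hcs (Nat.cast_nonneg (max (J₁ + 1) K))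
    have h4 := le_abs_self (Yf s₁ s₂ (J₁ + 1 : ℕ))
    have h5 := abs_nonneg (Yf s₁ s₂ (J₁ + 1 : ℕ))
    nlinarith
  obtain ⟨-, Yj, hYj, -⟩ := H j (hJ₁.trans hj)
  obtain ⟨-, Yk, hYk, -⟩ := H k (hJ₁.trans hk)
  have eqj := Yf_eq h2 hcs (Nat.cast_nonneg j)
  have eqk := Yf_eq h2 hcs (Nat.cast_nonneg k)
  have hgt := Yf_gt h2 hcs (Nat.cast_nonneg j) (hJ₁' j hj)
  -- `s₁` is algebraic
  obtain ⟨S₁, hS₁⟩ : ∃ S₁, ψ S₁ = (s₁ : ℂ) := by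
    obtain ⟨a, ha⟩ : ∃ a : A, a = (j : A) ^ 2 * (k : A) ^ 2 * (Yk - Yj) := ⟨_, rfl⟩
    obtain ⟨b, hb⟩ : ∃ b : A, b = -2 * (j : A) * (k : A) ^ 2 * (Yj - 2) * (Yk + 2) +
      2 * (k : A) * (j : A) ^ 2 * (Yk - 2) * (Yj + 2) := ⟨_, rfl⟩
    obtain ⟨c, hc⟩ : ∃ c : A, c = (k : A) ^ 2 * (Yj - 2) ^ 2 * (Yk + 2) -
      (j : A) ^ 2 * (Yk - 2) ^ 2 * (Yj + 2) := ⟨_, rfl⟩
    have ha0 : a ≠ 0 := by
      rw [ha]
      have hne : Yk ≠ Yj := by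
        intro h0
        rw [h0, hYj] at hYk
        have : Yf s₁ s₂ j = Yf s₁ s₂ k := by exact_mod_cast hYk
        linarith
      have : (j : A) ≠ 0 := by exact_mod_cast hj0
      have : (k : A) ≠ 0 := by exact_mod_cast hk0
      have := sub_ne_zero.mpr hne
      positivity
    have hp : (C a * X ^ 2 + C b * X + C c : A[X]) ≠ 0 := by
      intro h0
      have h1 := congrArg (fun p => coeff p 2) h0
      simp at h1
      exact ha0 h1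
    obtain ⟨S₁, -, hS₁⟩ := root_lift ψ hp (μ := (s₁ : ℂ)) (by
      simp only [Polynomial.map_add, Polynomial.map_mul, Polynomial.map_pow, map_C, map_X, eval_add, eval_mul, eval_C,
        eval_pow, eval_X]
      rw [ha, hb, hc]
      simp only [map_add, map_sub, map_mul, map_pow, map_neg, map_natCast, map_ofNat, hYj, hYk]
      have e : (((j : ℝ) ^ 2 * (k : ℝ) ^ 2 * (Yf s₁ s₂ k - Yf s₁ s₂ j)) * s₁ ^ 2 +
        (-2 * (j : ℝ) * (k : ℝ) ^ 2 * (Yf s₁ s₂ j - 2) * (Yf s₁ s₂ k + 2) +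
        2 * (k : ℝ) * (j : ℝ) ^ 2 * (Yf s₁ s₂ k - 2) * (Yf s₁ s₂ j + 2)) * s₁ +
        ((k : ℝ) ^ 2 * (Yf s₁ s₂ j - 2) ^ 2 * (Yf s₁ s₂ k + 2) -
        (j : ℝ) ^ 2 * (Yf s₁ s₂ k - 2) ^ 2 * (Yf s₁ s₂ j + 2))) = 0 := by
        linear_combination (k : ℝ) ^ 2 * (Yf s₁ s₂ k + 2) * eqj - (j : ℝ) ^ 2 * (Yf s₁ s₂ j + 2) * eqk
      exact_mod_cast congrArg (fun x : ℝ => (x : ℂ)) e)
    exact ⟨S₁, hS₁⟩
  obtain ⟨S₂, hS₂⟩ : ∃ S₂, ψ S₂ = (s₂ : ℂ) := by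
    refine ⟨(Yj - 2 - j * S₁) ^ 2 / ((j : A) ^ 2 * (Yj + 2)), ?_⟩
    simp only [map_div₀, map_pow, map_sub, map_mul, map_add, map_natCast, map_ofNat, hYj, hS₁]
    have hj0' : (j : ℝ) ≠ 0 := by exact_mod_cast hj0
    have e : (Yf s₁ s₂ j - 2 - j * s₁) ^ 2 / ((j : ℝ) ^ 2 * (Yf s₁ s₂ j + 2)) = s₂ := by
      rw [eqj, div_eq_iff (mul_ne_zero (pow_ne_zero 2 hj0') (by linarith))]
      ring
    exact_mod_cast congrArg (fun x : ℝ => (x : ℂ)) e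
  have hS₂0 : S₂ ≠ 0 := by
    intro h0
    rw [h0, map_zero] at hS₂
    have : s₂ = 0 := by exact_mod_cast hS₂.symm
    linarith
  have hext : ∀ i, ∃ α : A →+* ℂ, ∀ l, α (algebraMap L A l) = σ i l := fun i => exists_ext (A := A) (σ i)
  choose α₀ hα₀ using hext
  obtain ⟨C, hC⟩ : ∃ C, C = s₂ + 3 * |s₁| + 10 := ⟨_, rfl⟩
  have hC0 : 0 < C := by
    have := abs_nonneg s₁
    rw [hC]
    linarith
  have hgrow : ∀ j : ℕ, 1 ≤ j → J₁ ≤ j → (Yf s₁ s₂ j) ^ κ ≤ (C * (j : ℝ) ^ 2) ^ κ := by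
    intro j hj1 hjJ
    apply Real.rpow_le_rpow _ _ hκ0
    · have := Yf_gt h2 hcs (Nat.cast_nonneg j) (hJ₁' j hjJ)
      linarith
    · rw [hC]
      exact Yf_upper h2 (by exact_mod_cast hj1)
  -- the number field
  obtain ⟨E, hE⟩ : ∃ E : IntermediateField L A, E = IntermediateField.adjoin L {S₁, S₂} := ⟨_, rfl⟩
  have hS₁E : S₁ ∈ E := by rw [hE]; exact IntermediateField.subset_adjoin _ _ (by simp)
  have hS₂E : S₂ ∈ E := by rw [hE]; exact IntermediateField.subset_adjoin _ _ (by simp)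
  have : FiniteDimensional L E := by
    rw [hE]
    exact IntermediateField.finiteDimensional_adjoin (fun x _ => Algebra.IsIntegral.isIntegral x)
  have : NumberField E := NumberField.of_module_finite L E
  have : CharZero L := inferInstance
  have : IsAlgClosure L A := ⟨inferInstance, inferInstance⟩
  have : Normal L A := IsAlgClosure.normal L A
  have : IsGalois L A := ⟨⟩
  have hα₀S : ∀ i, α₀ i S₂ ≠ 0 := fun i => (map_ne_zero (α₀ i)).mpr hS₂0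
  -- the values are in `E`
  have hlarge := fun i => exists_large 4 (α₀ i S₁) (α₀ i S₂) (hα₀S i) hκ0 hκ hC0
  choose J₂' hJ₂' using hlarge
  obtain ⟨J₂, hJ₂''⟩ := Finite.exists_le J₂'
  have hJ₂ := fun (i : I) (j : ℕ) (hj : J₂ ≤ j) => hJ₂' i j ((hJ₂'' i).trans hj)
  have hmem : ∀ j : ℕ, 1 ≤ j → J₁ ≤ j → J₂ ≤ j → ∀ (i : I) (Y : A), ψ Y = (Yf s₁ s₂ j : ℂ) →
      (∀ α : A →+* ℂ, (∀ l, α (algebraMap L A l) = σ i l) → ‖α Y‖ ≤ 2 * (Yf s₁ s₂ j) ^ κ) →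
      (Y - 2 - j * S₁) ^ 2 = (j : A) ^ 2 * S₂ * (Y + 2) ∧ Y ∈ E := by
    intro j hj1 hj hj2 i Y hY hYb
    have hq : (Y - 2 - j * S₁) ^ 2 = (j : A) ^ 2 * S₂ * (Y + 2) := by
      apply ψ.injective
      simp only [map_pow, map_sub, map_mul, map_add, map_natCast, map_ofNat, hY, hS₁, hS₂]
      exact_mod_cast congrArg (fun x : ℝ => (x : ℂ)) (Yf_eq h2 hcs (Nat.cast_nonneg j))
    refine ⟨hq, ?_⟩
    by_contra hYE
    have h1 : ∃ τ ∈ E.fixingSubgroup, τ Y ≠ Y := by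
      by_contra hcon
      push Not at hcon
      apply hYE
      rw [← InfiniteGalois.fixedField_fixingSubgroup E, IntermediateField.mem_fixedField_iff]
      exact hcon
    obtain ⟨τ, hτ, hτY⟩ := h1
    rw [IntermediateField.mem_fixingSubgroup_iff] at hτ
    have e1 := hτ S₁ hS₁E
    have e2 := hτ S₂ hS₂E
    have e3 := congrArg τ hq
    simp only [map_pow, map_sub, map_mul, map_add, map_natCast, map_ofNat, e1, e2] at e3
    have e4 : τ Y = (4 + 2 * j * S₁ + (j : A) ^ 2 * S₂) - Y := by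
      have h3 : (τ Y - Y) * (τ Y + Y - (4 + 2 * j * S₁ + (j : A) ^ 2 * S₂)) = 0 := by
        linear_combination e3 - hq
      have h4 := (mul_eq_zero.mp h3).resolve_left (sub_ne_zero.mpr hτY)
      linear_combination h4
    have b1 := hYb (α₀ i) (hα₀ i)
    have b2 := hYb ((α₀ i).comp τ.toRingEquiv.toRingHom) (by
      intro l
      show α₀ i (τ (algebraMap L A l)) = σ i l
      rw [AlgEquiv.commutes, hα₀])
    have b3 : ((α₀ i).comp τ.toRingEquiv.toRingHom) Y = α₀ i (τ Y) := rfl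
    rw [b3, e4, map_sub] at b2
    have b4 := hJ₂ i j hj2
    have b5 : α₀ i (4 + 2 * j * S₁ + (j : A) ^ 2 * S₂) = 4 + 2 * j * α₀ i S₁ + (j : ℂ) ^ 2 * α₀ i S₂ := by
      simp only [map_add, map_mul, map_pow, map_natCast, map_ofNat]
    rw [← b5] at b4
    have b6 : ‖α₀ i (4 + 2 * j * S₁ + (j : A) ^ 2 * S₂)‖ ≤
        ‖α₀ i (4 + 2 * j * S₁ + (j : A) ^ 2 * S₂) - α₀ i Y‖ + ‖α₀ i Y‖ := by
      calc _ = ‖(α₀ i (4 + 2 * j * S₁ + (j : A) ^ 2 * S₂) - α₀ i Y) + α₀ i Y‖ := by rw [sub_add_cancel]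
        _ ≤ _ := norm_add_le _ _
    have b7 := hgrow j hj1 hj
    linarith
  -- the discriminant vanishes
  have hdisc : S₁ ^ 2 = 4 * S₂ := by
    by_contra hne
    have hne' : (⟨S₁, hS₁E⟩ : E) ^ 2 ≠ 4 * ⟨S₂, hS₂E⟩ := by
      intro h0
      exact hne (congrArg (algebraMap E A) h0)
    have h20 : (⟨S₂, hS₂E⟩ : E) ≠ 0 := by
      intro h0
      exact hS₂0 (congrArg (algebraMap E A) h0)
    obtain ⟨j, hj, hjs⟩ := exists_not_isSquare h20 hne' (max (max J₁ J₂) 1)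
    obtain ⟨i, Y, hY, hYb⟩ := H j (by omega)
    obtain ⟨hq, hYE⟩ := hmem j (by omega) (by omega) (by omega) i Y hY hYb
    apply hjs
    have hj0 : (j : E) ≠ 0 := by
      have : j ≠ 0 := by omega
      exact_mod_cast this
    refine ⟨(2 * ⟨Y, hYE⟩ - (4 + 2 * j * ⟨S₁, hS₁E⟩ + (j : E) ^ 2 * ⟨S₂, hS₂E⟩)) / j, ?_⟩
    have hq' : ((⟨Y, hYE⟩ : E) - 2 - j * ⟨S₁, hS₁E⟩) ^ 2 = (j : E) ^ 2 * ⟨S₂, hS₂E⟩ * (⟨Y, hYE⟩ + 2) := by
      apply (algebraMap E A).injective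
      simp only [map_pow, map_sub, map_mul, map_add, map_natCast, map_ofNat]
      exact hq
    field_simp
    linear_combination -4 * hq'
  -- conclusion
  have hdisc' : s₁ ^ 2 = 4 * s₂ := by
    have := congrArg ψ hdisc
    simp only [map_pow, map_mul, map_ofNat, hS₁, hS₂] at this
    exact_mod_cast this
  have hlarge3 := fun i => exists_large 2 (α₀ i S₁) (α₀ i S₂) (hα₀S i) hκ0 hκ hC0
  choose J₃' hJ₃' using hlarge3
  obtain ⟨J₃, hJ₃''⟩ := Finite.exists_le J₃'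
  obtain ⟨j, hj1, hj, hj3⟩ : ∃ j, 1 ≤ j ∧ J₁ ≤ j ∧ J₃ ≤ j := ⟨max 1 (max J₁ J₃), by omega, by omega, by omega⟩
  obtain ⟨i, Y, hY, hYb⟩ := H j (hJ₁.trans hj)
  have hY2 : Y = 2 + 2 * j * S₁ + (j : A) ^ 2 * S₂ := by
    apply ψ.injective
    simp only [map_add, map_mul, map_pow, map_natCast, map_ofNat, hY, hS₁, hS₂]
    exact_mod_cast congrArg (fun x : ℝ => (x : ℂ)) (Yf_of_eq h2 hdisc' (Nat.cast_nonneg j) (hJ₁' j hj))
  have h3 := hJ₃' i j ((hJ₃'' i).trans hj3)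
  have h4 := hYb (α₀ i) (hα₀ i)
  rw [hY2] at h4
  simp only [map_add, map_mul, map_pow, map_natCast, map_ofNat] at h4
  have h5 := hgrow j hj1 hj
  have h6 : 0 ≤ (C * (j : ℝ) ^ 2) ^ κ := by positivity
  linarith

end

end Pool.Agent.LCH
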