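import Pool.Agent.LCH.RealG

/-!
# LCH/CplxG: groups of isometries with vertical unipotent elements
-/

namespace Pool.Agent.LCH

section

variable {𝕜 : Type*} [RCLike 𝕜] {V : Type*} [AddCommGroup V] [Module 𝕜 V]

/-- An isometry `u` with `(u - 1) ^ 2 = 0`. -/
theorem exists_vert {h : V → V → 𝕜} (hh : HForm h) {u : V →ₗ[𝕜] V} (hu : ∀ x y, h (u x) (u y) = h x y)
    (h2 : (u - 1) ^ 2 = 0) (h1 : u ≠ 1) : ∃ (e : V) (c : 𝕜), e ≠ 0 ∧ h e e = 0 ∧ c ≠ 0 ∧ star c = -c ∧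
      ∀ y, u y = y + (c * h e y) • e := by
  obtain ⟨N, hN⟩ : ∃ N, N = u - 1 := ⟨_, rfl⟩
  have hNg : ∀ y, u y = y + N y := by
    intro y
    rw [hN, LinearMap.sub_apply, Module.End.one_apply]
    abel
  have hNN : ∀ y, N (N y) = 0 := by
    intro y
    rw [← hN, pow_two] at h2
    exact congrArg (fun f : V →ₗ[𝕜] V => f y) h2
  have i1 : ∀ y z, h (N y) z + h y (N z) + h (N y) (N z) = 0 := by
    intro y z
    have := hu y z
    rw [hNg, hNg, hh.add, hh.add_left, hh.add_left] at this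
    linear_combination this
  have i2 : ∀ y z, h (N y) (N z) = 0 := by
    intro y z
    have := i1 y (N z)
    rw [hNN, hh.zero_right, hh.zero_right] at this
    simpa using this
  have i3 : ∀ y z, h (N y) z + h y (N z) = 0 := by
    intro y z
    have := i1 y z
    rwa [i2, add_zero] at this
  have hN0 : ∃ z, N z ≠ 0 := by
    by_contra hcon
    push Not at hcon
    apply h1
    ext x
    rw [hNg, hcon, add_zero]
    rfl
  obtain ⟨z₀, hz₀⟩ := hN0
  obtain ⟨e, he⟩ : ∃ e, e = N z₀ := ⟨_, rfl⟩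
  have he0 : e ≠ 0 := by rwa [he]
  have hee : h e e = 0 := by rw [he]; exact i2 _ _
  obtain ⟨y₀, hy₀⟩ : ∃ y₀, h e y₀ = 1 := by
    obtain ⟨t, ht, hpos⟩ := hh.neg
    have het : h e t ≠ 0 := by
      intro h0
      have := hpos e (by rw [hh.symm e t, h0, star_zero]) he0
      rw [hee, map_zero] at this
      exact lt_irrefl _ this
    exact ⟨(h e t)⁻¹ • t, by rw [hh.smul, inv_mul_cancel₀ het]⟩
  obtain ⟨c, hc⟩ := hh.prop he0 hee (i2 y₀ y₀) (by rw [he]; exact i2 _ _)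
  have key : ∀ y, N y = (-star c * h e y) • e := by
    intro y
    obtain ⟨d, hd⟩ := hh.prop he0 hee (i2 y y) (by rw [he]; exact i2 _ _)
    have h3 := i3 y y₀
    rw [hd, hc, hh.smul_left, hh.smul, hy₀, mul_one] at h3
    have h4 : d = -star c * h e y := by
      have h5 := congrArg star h3
      rw [star_add, star_star, star_mul', star_zero, ← hh.symm y e] at h5
      linear_combination h5
    rw [hd, h4]
  have hcc : star c = -c := by
    have h3 := key y₀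
    rw [hy₀, mul_one, hc] at h3
    have h4 : (c + star c) • e = 0 := by
      rw [add_smul, h3, neg_smul, neg_add_cancel]
    rcases smul_eq_zero.mp h4 with h5 | h5
    · linear_combination h5
    · exact absurd h5 he0
  refine ⟨e, c, he0, hee, ?_, hcc, ?_⟩
  · intro h0
    apply hz₀
    rw [key, h0, star_zero, neg_zero, zero_mul, zero_smul]
  · intro y
    rw [hNg, key, hcc, neg_neg]

theorem vert_case {L A : Type*} [Field L] [Field A] [Algebra L A] [Algebra.IsAlgebraic L A] {I : Type*} [Finite I]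
    (ψ : A →+* ℂ) (σ : I → L →+* ℂ) {κ : ℝ} (hκ0 : 0 ≤ κ) (hκ : κ < 1) {h : V → V → 𝕜}
    (hh : HForm h) {Γ : Subgroup (V ≃ₗ[𝕜] V)} (hΓ : ∀ γ ∈ Γ, ∀ x y, h (γ x) (γ y) = h x y) (hfix : NoBdFix h Γ)
    (H : ∀ ℓ ∈ hlens h (maps Γ), ∃ i, Contr ψ (σ i) κ (Real.exp ℓ)) {u : V ≃ₗ[𝕜] V} (hu : u ∈ Γ)
    (hn : ((u : V →ₗ[𝕜] V) - 1) ^ 2 = 0) : u = 1 := by
  by_contra hu1
  obtain ⟨e, c, he, hee, hc0, hcc, huc⟩ := exists_vert hh (u := (u : V →ₗ[𝕜] V)) (hΓ u hu) hn (by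
    intro h0
    apply hu1
    ext x
    exact congrArg (fun f : V →ₗ[𝕜] V => f x) h0)
  have huc' : ∀ y, u y = y + (c * h e y) • e := huc
  obtain ⟨γ, hγ, hγe⟩ := hfix e he hee
  obtain ⟨f, hf⟩ : ∃ f, f = γ e := ⟨_, rfl⟩
  have hff : h f f = 0 := by rw [hf, hΓ γ hγ, hee]
  obtain ⟨β, hβ⟩ : ∃ β, β = h e f := ⟨_, rfl⟩
  have hβ0 : β ≠ 0 := by
    intro h0
    rw [hβ] at h0
    obtain ⟨d, hd⟩ := hh.prop he hee hff h0
    exact hγe d (by rw [← hf, hd])
  have hfe : h f e = star β := by rw [hβ, ← hh.symm]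
  -- powers of `u` and the inverse
  have hpow : ∀ (k : ℕ) (y : V), (u ^ k) y = y + ((k : 𝕜) * (c * h e y)) • e := by
    intro k
    induction k with
    | zero => intro y; simp
    | succ k ih =>
      intro y
      rw [pow_succ]
      show (u ^ k) (u y) = _
      rw [ih, huc', hh.add, hh.smul, hee, mul_zero, add_zero]
      push_cast
      module
  have hinv : ∀ y, (u⁻¹ : V ≃ₗ[𝕜] V) y = y - (c * h e y) • e := by
    intro y
    show u.symm y = _
    rw [LinearEquiv.symm_apply_eq, huc', hh.sub_right, hh.smul, hee, mul_zero, sub_zero]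
    abel
  have hv : ∀ y, (γ * u⁻¹ * γ⁻¹) y = y - (c * h f y) • f := by
    intro y
    show γ ((u⁻¹ : V ≃ₗ[𝕜] V) (γ⁻¹ y)) = _
    have k1 : γ ((γ⁻¹ : V ≃ₗ[𝕜] V) y) = y := γ.apply_symm_apply y
    rw [hinv, map_sub, map_smul, k1, ← hf]
    have k2 : h e ((γ⁻¹ : V ≃ₗ[𝕜] V) y) = h f y := by
      rw [← hΓ γ hγ e, k1, hf]
    rw [k2]
  -- the constant
  obtain ⟨Bc, hBc⟩ : ∃ Bc : ℝ, Bc = ‖c‖ ^ 2 * ‖β‖ ^ 2 := ⟨_, rfl⟩
  have hBpos : 0 < Bc := by
    rw [hBc]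
    have := norm_pos_iff.mpr hc0
    have := norm_pos_iff.mpr hβ0
    positivity
  have hBc' : (Bc : 𝕜) = -(c * c) * (β * star β) := by
    rw [hBc]
    push_cast
    have k1 : star c * c = (‖c‖ : 𝕜) ^ 2 := RCLike.conj_mul c
    have k2 : β * star β = (‖β‖ : 𝕜) ^ 2 := RCLike.mul_conj β
    rw [← k1, ← k2, hcc]
    ring
  -- eigenvectors
  have heig : ∀ (k : ℕ) (r : ℝ), r ^ 2 - (2 + k * Bc) * r + 1 = 0 →
      ∃ y : V, y ≠ 0 ∧ (u ^ k * (γ * u⁻¹ * γ⁻¹)) y = (r : 𝕜) • y := by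
    intro k r hr
    have hr' : (r : 𝕜) ^ 2 - (2 + k * (Bc : 𝕜)) * r + 1 = 0 := by
      have := congrArg (fun x : ℝ => (x : 𝕜)) hr
      push_cast at this
      exact this
    refine ⟨((r : 𝕜) - 1) • e - (c * star β) • f, ?_, ?_⟩
    · intro h0
      have h1 := congrArg (h e) h0
      rw [hh.sub_right, hh.smul, hh.smul, hee, hh.zero_right, ← hβ] at h1
      have h2 : c * (star β * β) = 0 := by linear_combination -h1
      rcases mul_eq_zero.mp h2 with h3 | h3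
      · exact hc0 h3
      · rcases mul_eq_zero.mp h3 with h4 | h4
        · exact hβ0 (star_eq_zero.mp h4)
        · exact hβ0 h4
    · show (u ^ k) ((γ * u⁻¹ * γ⁻¹) _) = _
      rw [hv, hpow]
      simp only [hh.sub_right, hh.smul, hfe, hff, hee, ← hβ]
      have h1 : (r : 𝕜) - 1 + k * (c * ((c * (((r : 𝕜) - 1) * star β - c * star β * 0)) * β * (-1) +
          -(c * star β) * β)) = (r : 𝕜) * (r - 1) := by
        linear_combination -hr' - (k * r : 𝕜) * hBc'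
      rw [smul_sub, smul_smul, smul_smul, ← h1]
      module
  -- boundedness
  have hbdd : ∀ k : ℕ, 1 ≤ k → ∃ i, Bdd ψ (σ i) κ (2 + k * Bc) := by
    intro k hk
    have hk' : (1 : ℝ) ≤ k := by exact_mod_cast hk
    obtain ⟨R, hR, hRY⟩ := exists_R (Y := 2 + k * Bc) (by nlinarith)
    have hR0 : R ≠ 0 := by linarith
    suffices hmem : Real.log R ∈ hlens h (maps Γ) by
      obtain ⟨i, hi⟩ := H _ hmem
      rw [Real.exp_log (by linarith)] at hi
      refine ⟨i, ?_⟩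
      rw [← hRY]
      exact hi.bdd hκ0 hR
    have q1 : R ^ 2 - (2 + k * Bc) * R + 1 = 0 := by
      rw [← hRY]
      field_simp
      ring
    have q2 : R⁻¹ ^ 2 - (2 + k * Bc) * R⁻¹ + 1 = 0 := by
      rw [← hRY]
      field_simp
      ring
    obtain ⟨y₁, hy₁, e₁⟩ := heig k R q1
    obtain ⟨y₂, hy₂, e₂⟩ := heig k R⁻¹ q2
    obtain ⟨g, hg⟩ : ∃ g, g = u ^ k * (γ * u⁻¹ * γ⁻¹) := ⟨_, rfl⟩
    have hgΓ : g ∈ Γ := by
      rw [hg]
      exact Γ.mul_mem (Γ.pow_mem hu k) (Γ.mul_mem (Γ.mul_mem hγ (Γ.inv_mem hu)) (Γ.inv_mem hγ))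
    have hgm : ((g : V →ₗ[𝕜] V) : V → V) ∈ maps Γ := ⟨g, hgΓ, rfl⟩
    rw [← hg] at e₁ e₂
    exact hh.mem_hlens hgm (hΓ g hgΓ) hR hy₁ hy₂ e₁ e₂
  have hext : ∀ i, ∃ α : A →+* ℂ, ∀ l, α (algebraMap L A l) = σ i l := fun i => exists_ext (A := A) (σ i)
  choose α₀ hα₀ using hext
  obtain ⟨-, a₁, ha₁, -⟩ := hbdd 1 le_rfl
  obtain ⟨b, hb⟩ : ∃ b, b = a₁ - 2 := ⟨_, rfl⟩
  have hψb : ψ b = (Bc : ℂ) := by
    rw [hb, map_sub, ha₁, map_ofNat]
    push_cast
    ring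
  have hb0 : b ≠ 0 := by
    intro h0
    rw [h0, map_zero] at hψb
    have : Bc = 0 := by exact_mod_cast hψb.symm
    linarith
  have hαb : ∀ i, α₀ i b ≠ 0 := fun i => (map_ne_zero (α₀ i)).mpr hb0
  have hlarge := fun i => exists_large' (α₀ i b) (hαb i) hκ0 hκ hBpos
  choose K' hK1 hK' using hlarge
  obtain ⟨K, hK⟩ := Finite.exists_le K'
  obtain ⟨k, hk1, hkK⟩ : ∃ k : ℕ, 1 ≤ k ∧ K ≤ k := ⟨max 1 K, le_max_left _ _, le_max_right _ _⟩
  obtain ⟨i, a, ha, hab⟩ := hbdd k hk1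
  have hak : a = 2 + k * b := by
    apply ψ.injective
    rw [ha, map_add, map_mul, map_natCast, map_ofNat, hψb]
    push_cast
    ring
  have h3 := hab (α₀ i) (hα₀ i)
  rw [hak, map_add, map_mul, map_natCast, map_ofNat] at h3
  have h4 := hK' i k ((hK i).trans hkK)
  linarith

end

end Pool.Agent.LCH
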