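import Pool.Agent.LCC.Defs
import Pool.Agent.LCH.CplxG

/-!
# LCH/Final: a form which is definite at some other place, or contracting places
-/

namespace Pool.Agent.LCH

open Matrix Pool.Agent.LCC
open scoped ComplexOrder

/-- The form with matrix `M`. -/
def formOf {𝕜 : Type*} [RCLike 𝕜] {ι : Type*} [Fintype ι] (M : Matrix ι ι 𝕜) (x y : ι → 𝕜) : 𝕜 :=
  star x ⬝ᵥ (M *ᵥ y)

/-- The map `x ↦ φ(w) x`. -/
def actBy {𝕜 : Type*} [RCLike 𝕜] {ι : Type*} [Fintype ι] {L : Type*} [Field L] (φ : L →+* 𝕜)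
    (w : Matrix ι ι L) : (ι → 𝕜) → (ι → 𝕜) := fun x => (w.map φ) *ᵥ x

/-- The maps `x ↦ φ(w) x` for `w` in a group of matrices. -/
def actOf {𝕜 : Type*} [RCLike 𝕜] {ι : Type*} [Fintype ι] [DecidableEq ι] {L : Type*} [Field L] (φ : L →+* 𝕜)
    (Γ : Subgroup (GL ι L)) : Set ((ι → 𝕜) → (ι → 𝕜)) :=
  {g | ∃ w ∈ Γ, g = actBy φ (w : Matrix ι ι L)}

/-- At a place where the form is definite, all the eigenvalues have absolute value `1`. -/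
theorem root_of_posDef {ι : Type*} [Fintype ι] [DecidableEq ι] {L : Type*} [Field L] {c : L →+* L}
    {σ : L →+* ℂ} (hσ : ∀ x, σ (c x) = star (σ x)) {H : Matrix ι ι L} (hpos : (H.map σ).PosDef) {w : Matrix ι ι L}
    (hw : (w.map c)ᵀ * H * w = H) {ν : ℂ} (hν : ((w.charpoly).map σ).IsRoot ν) : |Real.log ‖ν‖| ≤ 0 := by
  have hW : (w.map σ)ᴴ * H.map σ * w.map σ = H.map σ := by
    have h1 := congrArg (fun M : Matrix ι ι L => M.map σ) hw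
    simp only [Matrix.map_mul] at h1
    rw [← h1]
    congr 2
    ext i j
    simp [Matrix.map_apply, hσ]
  rw [← Matrix.charpoly_map] at hν
  rw [norm_eq_one_of_posDef hpos hW hν, Real.log_one, abs_zero]

theorem contr_of_translates {𝕜 : Type*} [RCLike 𝕜] {ι : Type*} [Fintype ι] [DecidableEq ι] {L A : Type*} [Field L]
    [Field A] [Algebra L A] [IsAlgClosed A] {c : L →+* L} {φ : L →+* 𝕜} (hφ : ∀ x, φ (c x) = star (φ x))
    {σ : L →+* ℂ} (hσ : ∀ x, σ (c x) = star (σ x)) {H : Matrix ι ι L} (hH : HForm (formOf (H.map φ))) {κ ℓ : ℝ}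
    {ψ : A →+* ℂ} (hψ : ∀ l, ψ (algebraMap L A l) = toC 𝕜 (φ l)) {w : Matrix ι ι L}
    (hℓ : Translates (formOf (H.map φ)) (actBy φ w) ℓ)
    (hroot : ∀ ν : ℂ, ((w.charpoly).map σ).IsRoot ν → |Real.log ‖ν‖| ≤ κ * ℓ) : Contr ψ σ κ (Real.exp ℓ) := by
  obtain ⟨y, hy, s, hs, he⟩ := hH.eig_of_translates hℓ (fun x y => Matrix.mulVec_add _ _ _)
    (fun c x => Matrix.mulVec_smul _ _ _)
  exact contr_exp hφ hσ hy hs he hroot hψ

theorem contr_of_ratMul {L A : Type*} [Field L] [Field A] [Algebra L A] [IsAlgClosed A] {I : Type*}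
    {σ : I → L →+* ℂ} {κ : ℝ} {ψ : A →+* ℂ} {S : Set ℝ}
    (hS : ∀ ℓ ∈ S, 0 < ℓ ∧ ∃ i, Contr ψ (σ i) κ (Real.exp ℓ)) {x : ℝ} (hx : 0 < x)
    (hxS : x ∈ ratMul S) : ∃ i, Contr ψ (σ i) κ (Real.exp x) := by
  obtain ⟨r, ℓ, hℓ, rfl⟩ := hxS
  obtain ⟨hℓ0, i, hU⟩ := hS ℓ hℓ
  have hr : 0 < r := by
    have : (0 : ℝ) < r := by
      by_contra hcon
      push Not at hcon
      have := mul_nonpos_of_nonpos_of_nonneg hcon hℓ0.le
      linarith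
    exact_mod_cast this
  have h1 : Real.exp (r * ℓ) ^ r.den = Real.exp ℓ ^ r.num.toNat := by
    rw [← Real.exp_nat_mul, ← Real.exp_nat_mul]
    congr 1
    have h2 : ((r.num.toNat : ℕ) : ℝ) = (r.num : ℝ) := by
      have : ((r.num.toNat : ℕ) : ℤ) = r.num := Int.toNat_of_nonneg (Rat.num_pos.mpr hr).le
      exact_mod_cast congrArg (fun z : ℤ => (z : ℝ)) this
    have h3 : (r : ℝ) * r.den = r.num := by
      exact_mod_cast Rat.mul_den_eq_num r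
    rw [h2, ← h3]
    ring
  exact ⟨i, Contr.of_pow r.den_ne_zero h1 hU⟩

/-- The conditions on the first group: its form is definite at some other place, or for some finite set of
places, every element which translates by `ℓ` has all its eigenvalues, at one of these places, between
`exp (-κ ℓ)` and `exp (κ ℓ)`, for a fixed `κ < 1`. -/
def GoodPlaces {𝕜 : Type*} [RCLike 𝕜] {ι : Type*} [Fintype ι] [DecidableEq ι] {L : Type*} [Field L]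
    (c : L →+* L) (φ : L →+* 𝕜) (H : Matrix ι ι L) (Γ : Subgroup (GL ι L)) : Prop :=
  (∃ σ : L →+* ℂ, (∀ x, σ (c x) = star (σ x)) ∧ (H.map σ).PosDef) ∨
  ∃ (r : ℕ) (σ : Fin r → L →+* ℂ) (κ : ℝ), (∀ i x, σ i (c x) = star (σ i x)) ∧ κ < 1 ∧
    ∀ w ∈ Γ, ∀ ℓ : ℝ, Translates (formOf (H.map φ)) (actBy φ (w : Matrix ι ι L)) ℓ →
      ∃ i, ∀ ν : ℂ, ((w : Matrix ι ι L).charpoly.map (σ i)).IsRoot ν → |Real.log ‖ν‖| ≤ κ * ℓ

theorem exists_places {𝕜 : Type*} [RCLike 𝕜] {ι : Type*} [Fintype ι] [DecidableEq ι] {L : Type*} [Field L]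
    {c : L →+* L} {φ : L →+* 𝕜} (hφ : ∀ x, φ (c x) = star (φ x)) {H : Matrix ι ι L}
    (hH : HForm (formOf (H.map φ))) {Γ : Subgroup (GL ι L)}
    (hΓ : ∀ w ∈ Γ, ((w : Matrix ι ι L).map c)ᵀ * H * (w : Matrix ι ι L) = H) (hgood : GoodPlaces c φ H Γ)
    {ψ : AlgebraicClosure L →+* ℂ} (hψ : ∀ l, ψ (algebraMap L (AlgebraicClosure L) l) = toC 𝕜 (φ l)) :
    ∃ (r : ℕ) (σ : Fin r → L →+* ℂ) (κ : ℝ), 0 ≤ κ ∧ κ < 1 ∧ ∀ x : ℝ, 0 < x →
      x ∈ ratMul (hlens (formOf (H.map φ)) (actOf φ Γ)) → ∃ i, Contr ψ (σ i) κ (Real.exp x) := by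
  rcases hgood with ⟨σ, hσ, hpos⟩ | ⟨r, σ, κ, hσ, hκ, hcon⟩
  · refine ⟨1, fun _ => σ, 0, le_rfl, one_pos, fun x hx hxS => contr_of_ratMul ?_ hx hxS⟩
    rintro ℓ ⟨g, ⟨w, hw, rfl⟩, hℓ⟩
    refine ⟨hℓ.1, 0, contr_of_translates hφ hσ hH hψ hℓ (fun ν hν => ?_)⟩
    rw [zero_mul]
    exact root_of_posDef hσ hpos (hΓ w hw) hν
  · refine ⟨r, σ, max κ 0, le_max_right _ _, max_lt hκ one_pos, fun x hx hxS => contr_of_ratMul ?_ hx hxS⟩
    rintro ℓ ⟨g, ⟨w, hw, rfl⟩, hℓ⟩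
    obtain ⟨i, hi⟩ := hcon w hw ℓ hℓ
    refine ⟨hℓ.1, i, contr_of_translates hφ (hσ i) hH hψ hℓ (fun ν hν => (hi ν hν).trans ?_)⟩
    have := hℓ.1
    gcongr
    exact le_max_left _ _

end Pool.Agent.LCH
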