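import Mathlib

/-!
# LCH/Herm: real and complex hyperbolic spaces

A form `h : V → V → 𝕜` on a vector space over `𝕜 = ℝ` or `ℂ`, linear in the second variable, hermitian and of
signature `(n, 1)`, defines the real or complex hyperbolic space of the lines `𝕜 p` with `h p p < 0`. Its
geodesics are the curves `t ↦ 𝕜 (cosh t • p + sinh t • q)` with `h p p = -1`, `h q q = 1`, `h p q = 0`, for the metric
`cosh (dist x y) = |h x y| / √(h x x * h y y)` (of curvature `-1` in the real case, and between `-4` and `-1` in the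
complex case).
-/

namespace Pool.Agent.LCH

variable {𝕜 : Type*} [RCLike 𝕜] {V : Type*} [AddCommGroup V] [Module 𝕜 V]

/-- A hermitian form of signature `(n, 1)`, linear in the second variable: it is negative on some vector and
positive definite on the orthogonal complement of that vector. -/
structure HForm (h : V → V → 𝕜) : Prop where
  add : ∀ x y z, h x (y + z) = h x y + h x z
  smul : ∀ (c : 𝕜) (x y : V), h x (c • y) = c * h x y
  symm : ∀ x y, h y x = star (h x y)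
  neg : ∃ t, RCLike.re (h t t) < 0 ∧ ∀ y, h t y = 0 → y ≠ 0 → 0 < RCLike.re (h y y)

/-- `g` translates by `ℓ > 0` along the geodesic `t ↦ 𝕜 (cosh t • p + sinh t • q)`, for some `p`, `q`. -/
def Translates (h : V → V → 𝕜) (g : V → V) (ℓ : ℝ) : Prop :=
  0 < ℓ ∧ ∃ p q : V, h p p = -1 ∧ h q q = 1 ∧ h p q = 0 ∧ ∃ s : 𝕜, ‖s‖ = 1 ∧
    ∀ t : ℝ, g ((Real.cosh t : 𝕜) • p + (Real.sinh t : 𝕜) • q) =
      s • ((Real.cosh (t + ℓ) : 𝕜) • p + (Real.sinh (t + ℓ) : 𝕜) • q)

/-- The lengths of the closed geodesics of the quotient of the hyperbolic space of `h` by a set `G` of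
isometries. -/
def hlens (h : V → V → 𝕜) (G : Set (V → V)) : Set ℝ := {ℓ | ∃ g ∈ G, Translates h g ℓ}

section

variable {h : V → V → 𝕜} (hh : HForm h)
include hh

theorem HForm.add_left (x y z : V) : h (x + y) z = h x z + h y z := by
  rw [hh.symm z (x + y), hh.add, star_add, ← hh.symm z x, ← hh.symm z y]

theorem HForm.smul_left (c : 𝕜) (x y : V) : h (c • x) y = star c * h x y := by
  rw [hh.symm y (c • x), hh.smul, star_mul', ← hh.symm y x]

theorem HForm.zero_right (x : V) : h x 0 = 0 := by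
  have := hh.smul 0 x 0
  simpa using this

theorem HForm.zero_left (x : V) : h 0 x = 0 := by
  have := hh.smul_left 0 0 x
  simpa using this

theorem HForm.neg_right (x y : V) : h x (-y) = -h x y := by
  rw [← neg_one_smul 𝕜 y, hh.smul, neg_one_mul]

theorem HForm.neg_left (x y : V) : h (-x) y = -h x y := by
  rw [← neg_one_smul 𝕜 x, hh.smul_left, star_neg, star_one, neg_one_mul]

theorem HForm.sub_right (x y z : V) : h x (y - z) = h x y - h x z := by
  rw [sub_eq_add_neg, hh.add, hh.neg_right, sub_eq_add_neg]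

theorem HForm.sub_left (x y z : V) : h (x - y) z = h x z - h y z := by
  rw [sub_eq_add_neg, hh.add_left, hh.neg_left, sub_eq_add_neg]

/-- Orthogonal isotropic vectors are proportional. -/
theorem HForm.prop {e f : V} (he : e ≠ 0) (hee : h e e = 0) (hff : h f f = 0) (hef : h e f = 0) :
    ∃ c : 𝕜, f = c • e := by
  obtain ⟨t, ht, hpos⟩ := hh.neg
  have het : h t e ≠ 0 := by
    intro h0
    have := hpos e h0 he
    rw [hee, map_zero] at this
    exact lt_irrefl _ this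
  obtain ⟨c, hc⟩ : ∃ c, c = h t f / h t e := ⟨_, rfl⟩
  obtain ⟨z, hz⟩ : ∃ z, z = f - c • e := ⟨_, rfl⟩
  have hfe : h f e = 0 := by rw [hh.symm e f, hef, star_zero]
  have hzt : h t z = 0 := by
    rw [hz, hh.sub_right, hh.smul, hc, div_mul_cancel₀ _ het, sub_self]
  have hzz : h z z = 0 := by
    rw [hz]
    simp only [hh.sub_right, hh.sub_left, hh.smul, hh.smul_left, hee, hff, hef, hfe]
    ring
  by_cases hz0 : z = 0
  · exact ⟨c, by rw [hz] at hz0; exact sub_eq_zero.mp hz0⟩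
  · have := hpos z hzt hz0
    rw [hzz, map_zero] at this
    exact absurd this (lt_irrefl _)

/-- The length from two real eigenvectors. -/
theorem HForm.mem_hlens {G : Set (V → V)} {g : V →ₗ[𝕜] V} (hgG : (g : V → V) ∈ G)
    (hg : ∀ x y, h (g x) (g y) = h x y) {R : ℝ} (hR : 1 < R) {y₁ y₂ : V} (h₁ : y₁ ≠ 0) (h₂ : y₂ ≠ 0)
    (e₁ : g y₁ = (R : 𝕜) • y₁) (e₂ : g y₂ = ((R⁻¹ : ℝ) : 𝕜) • y₂) : Real.log R ∈ hlens h G := by
  have hR0 : R ≠ 0 := by linarith
  have hRi : R⁻¹ < 1 := inv_lt_one_of_one_lt₀ hR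
  have hRp : 0 < R⁻¹ := inv_pos.mpr (by linarith)
  have hiso : ∀ (r : ℝ) (y : V), g y = (r : 𝕜) • y → r ^ 2 ≠ 1 → h y y = 0 := by
    intro r y hy hr
    have h0 := hg y y
    rw [hy, hh.smul, hh.smul_left] at h0
    have hs : star (r : 𝕜) = r := RCLike.conj_ofReal r
    rw [hs] at h0
    have h3 : (((r ^ 2 - 1 : ℝ)) : 𝕜) * h y y = 0 := by
      push_cast
      linear_combination h0
    rcases mul_eq_zero.mp h3 with h4 | h4
    · exfalso
      apply hr
      have : r ^ 2 - 1 = 0 := by exact_mod_cast h4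
      linarith
    · exact h4
  have k1 : h y₁ y₁ = 0 := hiso R y₁ e₁ (by nlinarith)
  have k2 : h y₂ y₂ = 0 := hiso R⁻¹ y₂ e₂ (by nlinarith)
  have hne : ∀ c : 𝕜, y₂ ≠ c • y₁ := by
    intro c hc
    have h3 : g y₂ = (R : 𝕜) • y₂ := by rw [hc, map_smul, e₁, smul_comm]
    rw [e₂] at h3
    have h4 : (((R⁻¹ - R : ℝ)) : 𝕜) • y₂ = 0 := by
      push_cast
      rw [sub_smul]
      push_cast at h3
      rw [h3, sub_self]
    rcases smul_eq_zero.mp h4 with h5 | h5
    · have : R⁻¹ - R = 0 := by exact_mod_cast h5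
      linarith
    · exact h₂ h5
  have k3 : h y₁ y₂ ≠ 0 := by
    intro h0
    obtain ⟨c, hc⟩ := hh.prop h₁ k1 k2 h0
    exact hne c hc
  obtain ⟨z, hz⟩ : ∃ z, z = (-2 / h y₁ y₂) • y₂ := ⟨_, rfl⟩
  have z1 : h y₁ z = -2 := by
    rw [hz, hh.smul]
    field_simp
  have z1' : h z y₁ = -2 := by
    rw [hh.symm y₁ z, z1, star_neg, star_ofNat]
  have z2 : h z z = 0 := by rw [hz, hh.smul, hh.smul_left, k2]; simp
  have z3 : g z = ((R⁻¹ : ℝ) : 𝕜) • z := by rw [hz, map_smul, e₂, smul_comm]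
  have hhalf : star (1 / 2 : 𝕜) = 1 / 2 := by
    rw [star_div₀, star_one, star_ofNat]
  refine ⟨g, hgG, Real.log_pos hR, (1 / 2 : 𝕜) • (y₁ + z), (1 / 2 : 𝕜) • (y₁ - z), ?_, ?_, ?_, 1, norm_one, ?_⟩
  · simp only [hh.smul, hh.smul_left, hh.add, hh.add_left, k1, z1, z1', z2, hhalf]
    norm_num
  · simp only [hh.smul, hh.smul_left, hh.sub_right, hh.sub_left, k1, z1, z1', z2, hhalf]
    norm_num
  · simp only [hh.smul, hh.smul_left, hh.sub_right, hh.add_left, k1, z1, z1', z2, hhalf]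
    norm_num
  · intro t
    rw [one_smul]
    have hc : Real.cosh (t + Real.log R) = (Real.exp t * R + (Real.exp t)⁻¹ * R⁻¹) / 2 := by
      rw [Real.cosh_eq, neg_add, Real.exp_add, Real.exp_add, Real.exp_neg, Real.exp_neg, Real.exp_log (by linarith)]
    have hs : Real.sinh (t + Real.log R) = (Real.exp t * R - (Real.exp t)⁻¹ * R⁻¹) / 2 := by
      rw [Real.sinh_eq, neg_add, Real.exp_add, Real.exp_add, Real.exp_neg, Real.exp_neg, Real.exp_log (by linarith)]
    have hc0 : Real.cosh t = (Real.exp t + (Real.exp t)⁻¹) / 2 := by rw [Real.cosh_eq, Real.exp_neg]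
    have hs0 : Real.sinh t = (Real.exp t - (Real.exp t)⁻¹) / 2 := by rw [Real.sinh_eq, Real.exp_neg]
    rw [hc, hs, hc0, hs0]
    simp only [map_add, map_smul, map_sub, e₁, z3]
    push_cast
    module

/-- A translation gives an eigenvalue. -/
theorem HForm.eig_of_translates {g : V → V} {ℓ : ℝ} (hℓ : Translates h g ℓ)
    (gadd : ∀ x y, g (x + y) = g x + g y) (gsmul : ∀ (c : 𝕜) x, g (c • x) = c • g x) :
    ∃ y : V, y ≠ 0 ∧ ∃ s : 𝕜, ‖s‖ = 1 ∧ g y = (s * (Real.exp ℓ : ℝ)) • y := by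
  obtain ⟨h0, p, q, hp, hq, hpq, s, hs, hg⟩ := hℓ
  refine ⟨p + q, ?_, s, hs, ?_⟩
  · intro h1
    have h2 : q = (-1 : 𝕜) • p := by
      rw [neg_smul, one_smul]
      exact eq_neg_of_add_eq_zero_right h1
    rw [h2, hh.smul, hh.smul_left, hp, star_neg, star_one] at hq
    norm_num at hq
  · have h1 := hg 0
    simp only [Real.cosh_zero, Real.sinh_zero, RCLike.ofReal_one, RCLike.ofReal_zero, one_smul, zero_smul, add_zero,
      zero_add] at h1
    have h2 := hg (-ℓ)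
    rw [neg_add_cancel, Real.cosh_zero, Real.sinh_zero, RCLike.ofReal_one, RCLike.ofReal_zero, one_smul, zero_smul,
      add_zero, gadd, gsmul, gsmul, h1, Real.cosh_neg, Real.sinh_neg] at h2
    have hsinh : ((Real.sinh ℓ : ℝ) : 𝕜) ≠ 0 := by
      exact_mod_cast (Real.sinh_pos_iff.mpr h0).ne'
    have h6 : ((Real.cosh ℓ : ℝ) : 𝕜) ^ 2 = ((Real.sinh ℓ : ℝ) : 𝕜) ^ 2 + 1 := by
      exact_mod_cast congrArg (fun x : ℝ => (x : 𝕜)) (Real.cosh_sq ℓ)
    have h3 : g q = s • (((Real.sinh ℓ : ℝ) : 𝕜) • p + ((Real.cosh ℓ : ℝ) : 𝕜) • q) := by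
      have h4 : ((Real.sinh ℓ : ℝ) : 𝕜) • g q = ((Real.cosh ℓ : ℝ) : 𝕜) • s •
          (((Real.cosh ℓ : ℝ) : 𝕜) • p + ((Real.sinh ℓ : ℝ) : 𝕜) • q) - s • p := by
        rw [← h2]
        push_cast
        module
      have h5 : g q = ((Real.sinh ℓ : ℝ) : 𝕜)⁻¹ • (((Real.sinh ℓ : ℝ) : 𝕜) • g q) := by
        rw [smul_smul, inv_mul_cancel₀ hsinh, one_smul]
      rw [h5, h4]
      have h7 : ((Real.cosh ℓ : ℝ) : 𝕜) • s • (((Real.cosh ℓ : ℝ) : 𝕜) • p + ((Real.sinh ℓ : ℝ) : 𝕜) • q) - s • p =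
          (s * (((Real.cosh ℓ : ℝ) : 𝕜) ^ 2 - 1)) • p +
            (s * ((Real.cosh ℓ : ℝ) : 𝕜) * ((Real.sinh ℓ : ℝ) : 𝕜)) • q := by module
      rw [h7, h6, smul_add, smul_smul, smul_smul]
      have h8 : ((Real.sinh ℓ : ℝ) : 𝕜)⁻¹ * (s * (((Real.sinh ℓ : ℝ) : 𝕜) ^ 2 + 1 - 1)) =
          s * ((Real.sinh ℓ : ℝ) : 𝕜) := by field_simp; ring
      have h9 : ((Real.sinh ℓ : ℝ) : 𝕜)⁻¹ * (s * ((Real.cosh ℓ : ℝ) : 𝕜) * ((Real.sinh ℓ : ℝ) : 𝕜)) =
          s * ((Real.cosh ℓ : ℝ) : 𝕜) := by field_simp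
      rw [h8, h9]
      module
    rw [gadd, h1, h3]
    have h10 : Real.exp ℓ = Real.cosh ℓ + Real.sinh ℓ := (Real.cosh_add_sinh ℓ).symm
    rw [h10]
    push_cast
    module

end

end Pool.Agent.LCH
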