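import Pool.Agent.LCH.Pair

/-!
# LCH/Len: eigenvalues and lengths
-/

namespace Pool.Agent.LCH

variable {V : Type*} [AddCommGroup V] [Module ℝ V] {B : LinearMap.BilinForm ℝ V}

/-- The length from two real eigenvectors. -/
theorem mem_lens_of_eig (hB : Lorentz B) {G : Set (V →ₗ[ℝ] V)} {g : V →ₗ[ℝ] V} (hgG : g ∈ G)
    (hg : ∀ x y, B (g x) (g y) = B x y) {R : ℝ} (hR : 1 < R) {y₁ y₂ : V} (h₁ : y₁ ≠ 0) (h₂ : y₂ ≠ 0)
    (e₁ : g y₁ = R • y₁) (e₂ : g y₂ = R⁻¹ • y₂) : Real.log R ∈ lens B G := by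
  have hR0 : R ≠ 0 := by linarith
  have hRi : R⁻¹ < 1 := inv_lt_one_of_one_lt₀ hR
  have hRp : 0 < R⁻¹ := inv_pos.mpr (by linarith)
  have k1 : B y₁ y₁ = 0 := by
    have h := hg y₁ y₁
    rw [e₁] at h
    simp only [map_smul, LinearMap.smul_apply, smul_eq_mul] at h
    have h3 : (R ^ 2 - 1) * B y₁ y₁ = 0 := by linear_combination h
    exact (mul_eq_zero.mp h3).resolve_left (by nlinarith)
  have k2 : B y₂ y₂ = 0 := by
    have h := hg y₂ y₂
    rw [e₂] at h
    simp only [map_smul, LinearMap.smul_apply, smul_eq_mul] at h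
    have h3 : (1 - R⁻¹ ^ 2) * B y₂ y₂ = 0 := by linear_combination -h
    exact (mul_eq_zero.mp h3).resolve_left (by nlinarith)
  have hne : ∀ c : ℝ, y₂ ≠ c • y₁ := by
    intro c hc
    have h3 : g y₂ = R • y₂ := by rw [hc, map_smul, e₁, smul_comm]
    rw [e₂] at h3
    have h4 : (R⁻¹ - R) • y₂ = 0 := by rw [sub_smul, h3, sub_self]
    rcases smul_eq_zero.mp h4 with h5 | h5
    · linarith
    · exact h₂ h5
  have k3 : B y₂ y₁ ≠ 0 := hB.ne_zero h₁ k1 k2 hne
  obtain ⟨z, hz⟩ : ∃ z, z = (-2 / B y₂ y₁) • y₂ := ⟨_, rfl⟩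
  have z1 : B z y₁ = -2 := by
    rw [hz, map_smul, LinearMap.smul_apply, smul_eq_mul]
    field_simp
  have z1' : B y₁ z = -2 := by rw [hB.symm, z1]
  have z2 : B z z = 0 := by rw [hz]; simp [k2]
  have z3 : g z = R⁻¹ • z := by rw [hz, map_smul, e₂, smul_comm]
  refine ⟨Real.log_pos hR, g, hgG, (1 / 2 : ℝ) • (y₁ + z), (1 / 2 : ℝ) • (y₁ - z), ?_, ?_, ?_, 1, Or.inl rfl, ?_⟩
  · simp only [map_smul, map_add, LinearMap.smul_apply, LinearMap.add_apply, smul_eq_mul, k1, z1, z1', z2]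
    norm_num
  · simp only [map_smul, map_sub, LinearMap.smul_apply, LinearMap.sub_apply, smul_eq_mul, k1, z1, z1', z2]
    norm_num
  · simp only [map_smul, map_sub, map_add, LinearMap.smul_apply, LinearMap.add_apply, smul_eq_mul, k1, z1, z1', z2]
    norm_num
  · intro t
    rw [one_smul]
    have hc : Real.cosh (t + Real.log R) = (Real.exp t * R + (Real.exp t)⁻¹ * R⁻¹) / 2 := by
      rw [Real.cosh_eq, neg_add, Real.exp_add, Real.exp_add, Real.exp_neg, Real.exp_neg, Real.exp_log (by linarith)]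
    have hs : Real.sinh (t + Real.log R) = (Real.exp t * R - (Real.exp t)⁻¹ * R⁻¹) / 2 := by
      rw [Real.sinh_eq, neg_add, Real.exp_add, Real.exp_add, Real.exp_neg, Real.exp_neg, Real.exp_log (by linarith)]
    have hc0 : Real.cosh t = (Real.exp t + (Real.exp t)⁻¹) / 2 := by rw [Real.cosh_eq, Real.exp_neg]
    have hs0 : Real.sinh t = (Real.exp t - (Real.exp t)⁻¹) / 2 := by rw [Real.sinh_eq, Real.exp_neg]
    rw [hc, hs, hc0, hs0]
    simp only [map_add, map_smul, map_sub, e₁, z3]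
    module

/-- An element of `lens` gives a real eigenvalue. -/
theorem eig_of_mem_lens {G : Set (V →ₗ[ℝ] V)} {ℓ : ℝ} (h : ℓ ∈ lens B G) :
    0 < ℓ ∧ ∃ g ∈ G, ∃ y : V, y ≠ 0 ∧ ∃ s : ℝ, (s = 1 ∨ s = -1) ∧ g y = (s * Real.exp ℓ) • y := by
  obtain ⟨h0, g, hgG, p, q, hp, hq, hpq, s, hs, hg⟩ := h
  refine ⟨h0, g, hgG, p + q, ?_, s, hs, ?_⟩
  · intro h1
    have h2 : q = (-1 : ℝ) • p := by
      rw [neg_smul, one_smul]
      exact eq_neg_of_add_eq_zero_right h1
    rw [h2] at hq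
    simp only [map_smul, LinearMap.smul_apply, smul_eq_mul, hp] at hq
    norm_num at hq
  · have h1 := hg 0
    have hE : Real.exp ℓ ≠ 0 := (Real.exp_pos ℓ).ne'
    simp only [Real.cosh_zero, Real.sinh_zero, one_smul, zero_smul, add_zero, zero_add] at h1
    -- evaluate at a second point to get `g q`
    have h2 := hg (-ℓ)
    rw [neg_add_cancel, Real.cosh_zero, Real.sinh_zero, one_smul, zero_smul, add_zero, map_add, map_smul, map_smul,
      h1, Real.cosh_neg, Real.sinh_neg] at h2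
    have hsinh : Real.sinh ℓ ≠ 0 := (Real.sinh_pos_iff.mpr h0).ne'
    have h3 : g q = s • (Real.sinh ℓ • p + Real.cosh ℓ • q) := by
      have h4 : Real.sinh ℓ • g q = Real.cosh ℓ • s • (Real.cosh ℓ • p + Real.sinh ℓ • q) - s • p := by
        rw [← h2]
        module
      have h5 : g q = (Real.sinh ℓ)⁻¹ • (Real.sinh ℓ • g q) := by rw [smul_smul, inv_mul_cancel₀ hsinh, one_smul]
      rw [h5, h4]
      have h6 := Real.cosh_sq ℓ
      have h7 : Real.cosh ℓ • s • (Real.cosh ℓ • p + Real.sinh ℓ • q) - s • p =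
          (s * (Real.cosh ℓ ^ 2 - 1)) • p + (s * Real.cosh ℓ * Real.sinh ℓ) • q := by module
      rw [h7, h6, smul_add, smul_smul, smul_smul]
      have h8 : (Real.sinh ℓ)⁻¹ * (s * (Real.sinh ℓ ^ 2 + 1 - 1)) = s * Real.sinh ℓ := by field_simp; ring
      have h9 : (Real.sinh ℓ)⁻¹ * (s * Real.cosh ℓ * Real.sinh ℓ) = s * Real.cosh ℓ := by field_simp
      rw [h8, h9]
      module
    rw [map_add, h1, h3]
    have h10 : Real.exp ℓ = Real.cosh ℓ + Real.sinh ℓ := (Real.cosh_add_sinh ℓ).symm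
    rw [h10]
    module

end Pool.Agent.LCH
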