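import Mathlib

/-!
# LCH/Lor: Lorentz spaces and their unipotent isometries
-/

namespace Pool.Agent.LCH

variable {V : Type*} [AddCommGroup V] [Module ℝ V]

/-- A symmetric bilinear form of signature `(n, 1)`: it is negative on some vector and positive definite on the
orthogonal complement of that vector. -/
structure Lorentz (B : LinearMap.BilinForm ℝ V) : Prop where
  symm : ∀ x y, B x y = B y x
  neg : ∃ t, B t t < 0 ∧ ∀ y, B y t = 0 → y ≠ 0 → 0 < B y y

/-- The lengths of the closed geodesics of the quotient of the hyperbolic space `{x | B x x = -1} / ± 1` by a set `G`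
of isometries: some `g ∈ G` translates by `ℓ` along the geodesic `t ↦ cosh t • p + sinh t • q`. -/
def lens (B : LinearMap.BilinForm ℝ V) (G : Set (V →ₗ[ℝ] V)) : Set ℝ :=
  {ℓ | 0 < ℓ ∧ ∃ g ∈ G, ∃ p q : V, B p p = -1 ∧ B q q = 1 ∧ B p q = 0 ∧ ∃ s : ℝ, (s = 1 ∨ s = -1) ∧
    ∀ t : ℝ, g (Real.cosh t • p + Real.sinh t • q) = s • (Real.cosh (t + ℓ) • p + Real.sinh (t + ℓ) • q)}

section

variable {B : LinearMap.BilinForm ℝ V} (hB : Lorentz B)
include hB

/-- An isotropic vector is orthogonal only to vectors of nonnegative square. -/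
theorem Lorentz.nonneg {e : V} (he : e ≠ 0) (hee : B e e = 0) {y : V} (hy : B y e = 0) :
    0 ≤ B y y ∧ (B y y = 0 → ∃ c : ℝ, y = c • e) := by
  obtain ⟨t, ht, hpos⟩ := hB.neg
  have het : B e t ≠ 0 := by
    intro h
    have := hpos e h he
    linarith
  obtain ⟨c, hc⟩ : ∃ c, c = B y t / B e t := ⟨_, rfl⟩
  obtain ⟨z, hz⟩ : ∃ z, z = y - c • e := ⟨_, rfl⟩
  have hzt : B z t = 0 := by
    rw [hz, map_sub, map_smul, LinearMap.sub_apply, LinearMap.smul_apply, hc, smul_eq_mul]
    field_simp
    ring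
  have hzz : B z z = B y y := by
    rw [hz]
    simp only [map_sub, map_smul, LinearMap.sub_apply, LinearMap.smul_apply, smul_eq_mul, hee, hy]
    rw [hB.symm e y, hy]
    ring
  by_cases hz0 : z = 0
  · constructor
    · rw [← hzz, hz0]
      simp
    · intro _
      exact ⟨c, by rw [hz] at hz0; exact sub_eq_zero.mp hz0⟩
  · have := hpos z hzt hz0
    rw [hzz] at this
    exact ⟨this.le, fun h => absurd h this.ne'⟩

theorem Lorentz.ne_zero {e f : V} (he : e ≠ 0) (hee : B e e = 0) (hff : B f f = 0) (h : ∀ c : ℝ, f ≠ c • e) :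
    B f e ≠ 0 := by
  intro h0
  obtain ⟨c, hc⟩ := (hB.nonneg he hee h0).2 hff
  exact h c hc

/-- There is a vector not orthogonal to a given isotropic vector. -/
theorem Lorentz.exists_one {e : V} (he : e ≠ 0) (hee : B e e = 0) : ∃ f, B f e = 1 := by
  obtain ⟨t, ht, hpos⟩ := hB.neg
  have het : B t e ≠ 0 := by
    intro h
    rw [hB.symm] at h
    have := hpos e h he
    linarith
  exact ⟨(B t e)⁻¹ • t, by rw [map_smul, LinearMap.smul_apply, smul_eq_mul, inv_mul_cancel₀ het]⟩

end

/-- The unipotent isometry attached to an isotropic vector `e` and a vector `a` orthogonal to `e`. -/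
noncomputable def uni (B : LinearMap.BilinForm ℝ V) (e a : V) : V →ₗ[ℝ] V where
  toFun y := y + B y e • a - B y a • e - (1 / 2 * B a a * B y e) • e
  map_add' x y := by
    simp only [map_add, LinearMap.add_apply, mul_add, add_smul]
    abel
  map_smul' c y := by
    simp only [map_smul, LinearMap.smul_apply, smul_eq_mul, RingHom.id_apply]
    module

theorem uni_apply (B : LinearMap.BilinForm ℝ V) (e a y : V) :
    uni B e a y = y + B y e • a - B y a • e - (1 / 2 * B a a * B y e) • e := rfl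

/-- A unipotent isometry different from the identity has the form `uni B e a`. -/
theorem exists_uni {B : LinearMap.BilinForm ℝ V} (hB : Lorentz B) {g : V →ₗ[ℝ] V}
    (hg : ∀ x y, B (g x) (g y) = B x y) (hn : IsNilpotent (g - 1)) (h1 : g ≠ 1) :
    ∃ e a : V, e ≠ 0 ∧ B e e = 0 ∧ B a e = 0 ∧ 0 < B a a ∧ g = uni B e a := by
  set N := g - 1 with hN
  have hNg : ∀ y, g y = y + N y := by
    intro y
    rw [hN, LinearMap.sub_apply, Module.End.one_apply]
    abel
  have hN0 : N ≠ 0 := fun h => h1 (sub_eq_zero.mp h)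
  -- a vector in the kernel and in the range
  obtain ⟨e, z₀, he, hNe, hez⟩ : ∃ e z₀ : V, e ≠ 0 ∧ N e = 0 ∧ e = N z₀ := by
    classical
    obtain ⟨k, hk, hmin⟩ : ∃ k, N ^ k = 0 ∧ ∀ j < k, N ^ j ≠ 0 :=
      ⟨Nat.find hn, Nat.find_spec hn, fun j hj => Nat.find_min hn hj⟩
    obtain ⟨m, rfl⟩ : ∃ m, k = m + 2 := by
      refine ⟨k - 2, ?_⟩
      have h2 : k ≠ 0 := by
        rintro rfl
        rw [pow_zero] at hk
        apply hN0
        rw [← one_mul N, hk, zero_mul]
      have h3 : k ≠ 1 := by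
        rintro rfl
        rw [pow_one] at hk
        exact hN0 hk
      omega
    have h4 := hmin (m + 1) (by omega)
    obtain ⟨x, hx⟩ : ∃ x, (N ^ (m + 1)) x ≠ 0 := by
      by_contra hcon
      push Not at hcon
      exact h4 (LinearMap.ext hcon)
    refine ⟨(N ^ (m + 1)) x, (N ^ m) x, hx, ?_, ?_⟩
    · have : (N ^ (m + 2)) x = N ((N ^ (m + 1)) x) := by
        rw [pow_succ' N (m + 1)]
        rfl
      rw [← this, hk]
      rfl
    · rw [pow_succ' N m]
      rfl
  have hker : ∀ y z, N y = 0 → B (N z) y = 0 := by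
    intro y z hy
    have h2 := hg z y
    rw [hNg z, hNg y, hy, add_zero, map_add, LinearMap.add_apply] at h2
    linarith
  have hNe' : ∀ z, B (N z) e = 0 := fun z => hker e z hNe
  have hee : B e e = 0 := by
    have := hNe' z₀
    rwa [← hez] at this
  obtain ⟨k, hk⟩ := hn
  have hperp : ∀ y, B y e = 0 → ∃ c : ℝ, N y = c • e := by
    intro y hy
    have hpow : ∀ j, B ((N ^ j) y) e = 0 := by
      intro j
      rcases Nat.eq_zero_or_pos j with h | h
      · rw [h, pow_zero]
        exact hy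
      · obtain ⟨j', rfl⟩ : ∃ j', j = j' + 1 := ⟨j - 1, by omega⟩
        rw [pow_succ']
        exact hNe' _
    have hstep : ∀ j, (∃ c : ℝ, (N ^ (j + 2)) y = c • e) → ∃ c : ℝ, (N ^ (j + 1)) y = c • e := by
      rintro j ⟨c, hc⟩
      obtain ⟨y', hy'⟩ : ∃ y', y' = (N ^ j) y := ⟨_, rfl⟩
      obtain ⟨z, hz⟩ : ∃ z, z = (N ^ (j + 1)) y := ⟨_, rfl⟩
      have hzy : N y' = z := by
        rw [hy', hz, pow_succ' N j]
        rfl
      have hNz : N z = c • e := by
        rw [← hc, hz, pow_succ' N (j + 1)]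
        rfl
      have b1 : B y' e = 0 := by rw [hy']; exact hpow j
      have b2 : B z e = 0 := by rw [hz]; exact hpow (j + 1)
      have h2 := hg y' y'
      have h3 := hg y' z
      rw [hNg y', hzy] at h2 h3
      rw [hNg z, hNz] at h3
      simp only [map_add, LinearMap.add_apply, map_smul, LinearMap.smul_apply, smul_eq_mul] at h2 h3
      rw [b1, b2] at h3
      have h4 : B z z = 0 := by linarith
      obtain ⟨c', hc'⟩ := (hB.nonneg he hee b2).2 h4
      exact ⟨c', by rw [← hz]; exact hc'⟩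
    have hall : ∀ i, (∃ c : ℝ, (N ^ (i + 1)) y = c • e) → ∃ c : ℝ, (N ^ 1) y = c • e := by
      intro i
      induction i with
      | zero => exact fun h => h
      | succ i ih => exact fun h => ih (hstep i h)
    obtain ⟨c, hc⟩ := hall k ⟨0, by rw [pow_succ, hk, zero_mul, zero_smul]; rfl⟩
    exact ⟨c, by rw [← hc, pow_one]⟩
  obtain ⟨f, hf⟩ := hB.exists_one he hee
  obtain ⟨a, ha⟩ : ∃ a, a = N f := ⟨_, rfl⟩
  have hae : B a e = 0 := by rw [ha]; exact hNe' f
  have hgf : g f = f + a := by rw [hNg, ha]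
  have hfa : B f a = -(1 / 2 * B a a) := by
    have h2 := hg f f
    rw [hgf] at h2
    simp only [map_add, LinearMap.add_apply] at h2
    rw [hB.symm a f] at h2
    linarith
  have hform : g = uni B e a := by
    apply LinearMap.ext
    intro y
    obtain ⟨β, hβ⟩ : ∃ β, β = B y e := ⟨_, rfl⟩
    obtain ⟨y₀, hy₀⟩ : ∃ y₀, y₀ = y - β • f := ⟨_, rfl⟩
    have hy₀e : B y₀ e = 0 := by
      rw [hy₀, map_sub, map_smul, LinearMap.sub_apply, LinearMap.smul_apply, smul_eq_mul, hf, hβ]
      ring
    obtain ⟨c, hc⟩ := hperp y₀ hy₀e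
    have hc' : c = -(B y₀ a) := by
      have h2 := hg y₀ f
      rw [hgf, hNg y₀, hc] at h2
      simp only [map_add, LinearMap.add_apply, map_smul, LinearMap.smul_apply, smul_eq_mul] at h2
      rw [hB.symm e f, hf, hB.symm e a, hae] at h2
      linarith
    have hy₀a : B y₀ a = B y a + 1 / 2 * B a a * β := by
      rw [hy₀, map_sub, map_smul, LinearMap.sub_apply, LinearMap.smul_apply, smul_eq_mul, hfa]
      ring
    have hyy : y = y₀ + β • f := by rw [hy₀]; abel
    have hNy : N y = c • e + β • a := by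
      conv_lhs => rw [hyy]
      rw [map_add, map_smul, hc, ha]
    rw [hNg, hNy, uni_apply, ← hβ, hc', hy₀a]
    module
  have hpos : 0 < B a a := by
    obtain ⟨h2, h3⟩ := hB.nonneg he hee hae
    rcases h2.lt_or_eq with h4 | h4
    · exact h4
    · exfalso
      obtain ⟨c, hc⟩ := h3 h4.symm
      apply h1
      rw [hform]
      apply LinearMap.ext
      intro y
      rw [uni_apply, ← h4, hc]
      simp only [map_smul, smul_eq_mul, Module.End.one_apply]
      module
  exact ⟨e, a, he, hee, hae, hpos, hform⟩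

end Pool.Agent.LCH
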