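import Mathlib

/-!
# LCH/NT: a quadratic polynomial all of whose values are squares in a number field
-/

namespace Pool.Agent.LCH

open Filter

/-- An algebraic integer all of whose conjugates have absolute value less than `1` is zero. -/
theorem eq_zero_of_norm_lt_one {E : Type*} [Field E] [NumberField E] {x : E} (hx : IsIntegral ℤ x)
    (h : ∀ τ : E →+* ℂ, ‖τ x‖ < 1) : x = 0 := by
  by_contra hx0
  let a : NumberField.RingOfIntegers E := ⟨x, hx⟩
  have ha : a ≠ 0 := fun h0 => hx0 (congrArg Subtype.val h0)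
  obtain ⟨w⟩ : Nonempty (NumberField.InfinitePlace E) := inferInstance
  have h1 : ∀ z : NumberField.InfinitePlace E, z x < 1 := by
    intro z
    rw [← NumberField.InfinitePlace.norm_embedding_eq]
    exact h _
  have h2 := NumberField.InfinitePlace.one_le_of_lt_one (w := w) ha (fun z _ => h1 z)
  exact absurd (h1 w) (not_lt.mpr h2)

/-- Three squares in arithmetic progression of values of a quadratic polynomial with linear square roots. -/
theorem disc_eq_zero {E : Type*} [Field E] [CharZero E] {s₁ s₂ x d y₁ y₂ y₃ : E} (hd : d ≠ 0)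
    (h₁ : s₂ * (x ^ 2 * s₂ + 4 * x * s₁ + 16) = y₁ * y₁)
    (h₂ : s₂ * ((x + d) ^ 2 * s₂ + 4 * (x + d) * s₁ + 16) = y₂ * y₂)
    (h₃ : s₂ * ((x + 2 * d) ^ 2 * s₂ + 4 * (x + 2 * d) * s₁ + 16) = y₃ * y₃)
    (h : y₁ - 2 * y₂ + y₃ = 0) : s₂ ^ 2 * (s₁ ^ 2 - 4 * s₂) = 0 := by
  have e3 : y₃ = 2 * y₂ - y₁ := by linear_combination h
  rw [e3] at h₃
  have k1 : 4 * (y₁ * y₂) = 4 * (y₂ * y₂) + y₁ * y₁ -
      s₂ * ((x + 2 * d) ^ 2 * s₂ + 4 * (x + 2 * d) * s₁ + 16) := by linear_combination h₃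
  rw [← h₁, ← h₂] at k1
  have k2 : 16 * ((y₁ * y₁) * (y₂ * y₂)) = (4 * (y₁ * y₂)) ^ 2 := by ring
  rw [k1, ← h₁, ← h₂] at k2
  have k3 : d ^ 2 * (s₂ ^ 2 * (s₁ ^ 2 - 4 * s₂)) = 0 := by
    have h64 : (64 : E) ≠ 0 := by norm_num
    apply mul_left_cancel₀ h64
    linear_combination -k2
  exact (mul_eq_zero.mp k3).resolve_left (pow_ne_zero 2 hd)

theorem exists_natCast_integral {E : Type*} [Field E] [NumberField E] (s : E) :
    ∃ N : ℕ, N ≠ 0 ∧ IsIntegral ℤ ((N : E) * s) := by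
  have hs : IsAlgebraic ℤ s := by
    rw [IsFractionRing.isAlgebraic_iff ℤ ℚ E]
    exact Algebra.IsAlgebraic.isAlgebraic s
  obtain ⟨y, hy0, hy⟩ := hs.exists_integral_multiple
  refine ⟨y.natAbs, Int.natAbs_ne_zero.mpr hy0, ?_⟩
  rcases Int.natAbs_eq y with h | h
  · rw [h] at hy
    simpa [Algebra.smul_def] using hy
  · rw [h] at hy
    have := hy.neg
    simpa [Algebra.smul_def] using this

/-- The square root of a value is close to plus or minus a linear function. -/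
theorem sqrt_close {s₁ s₂ y : ℂ} {j : ℂ} (h : s₂ * (j ^ 2 * s₂ + 4 * j * s₁ + 16) = y * y)
    {L : ℝ} (hL : 0 < L) (hℓ : L ≤ ‖s₂ * j + 2 * s₁‖) :
    (‖y - (s₂ * j + 2 * s₁)‖ ≤ ‖y + (s₂ * j + 2 * s₁)‖ → ‖y - (s₂ * j + 2 * s₁)‖ ≤ ‖16 * s₂ - 4 * s₁ ^ 2‖ / L) ∧
    (¬ ‖y - (s₂ * j + 2 * s₁)‖ ≤ ‖y + (s₂ * j + 2 * s₁)‖ → ‖y + (s₂ * j + 2 * s₁)‖ ≤ ‖16 * s₂ - 4 * s₁ ^ 2‖ / L) := by
  have hprod : (y - (s₂ * j + 2 * s₁)) * (y + (s₂ * j + 2 * s₁)) = 16 * s₂ - 4 * s₁ ^ 2 := by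
    linear_combination -h
  have hn := congrArg norm hprod
  rw [norm_mul] at hn
  have h2 : 2 * ‖s₂ * j + 2 * s₁‖ ≤ ‖y + (s₂ * j + 2 * s₁)‖ + ‖y - (s₂ * j + 2 * s₁)‖ := by
    have h3 := norm_sub_le (y + (s₂ * j + 2 * s₁)) (y - (s₂ * j + 2 * s₁))
    have h4 : (y + (s₂ * j + 2 * s₁)) - (y - (s₂ * j + 2 * s₁)) = 2 * (s₂ * j + 2 * s₁) := by ring
    rw [h4, norm_mul] at h3
    simpa using h3
  constructor
  · intro hc
    rw [le_div_iff₀ hL, ← hn]
    exact mul_le_mul_of_nonneg_left (by linarith) (norm_nonneg _)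
  · intro hc
    push Not at hc
    rw [le_div_iff₀ hL, ← hn, mul_comm]
    exact mul_le_mul_of_nonneg_right (by linarith) (norm_nonneg _)

/-- A quadratic polynomial whose leading coefficient is a square and which is not the square of a polynomial
takes a non-square value at some large integer. -/
theorem exists_not_isSquare {E : Type*} [Field E] [NumberField E] {s₁ s₂ : E} (h2 : s₂ ≠ 0) (h : s₁ ^ 2 ≠ 4 * s₂)
    (J : ℕ) : ∃ j : ℕ, J ≤ j ∧ ¬ IsSquare (s₂ * ((j : E) ^ 2 * s₂ + 4 * j * s₁ + 16)) := by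
  by_contra hcon
  push Not at hcon
  choose! y hy using hcon
  -- integrality
  obtain ⟨N₁, hN₁, hi₁⟩ := exists_natCast_integral s₁
  obtain ⟨N₂, hN₂, hi₂⟩ := exists_natCast_integral s₂
  obtain ⟨N, hN⟩ : ∃ N, N = N₁ * N₂ := ⟨_, rfl⟩
  have hN0 : N ≠ 0 := by rw [hN]; exact mul_ne_zero hN₁ hN₂
  have k1 : IsIntegral ℤ ((N : E) * s₁) := by
    have : (N : E) * s₁ = (N₂ : E) * ((N₁ : E) * s₁) := by rw [hN]; push_cast; ring
    rw [this]
    exact (isIntegral_natCast N₂).mul hi₁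
  have k2 : IsIntegral ℤ ((N : E) * s₂) := by
    have : (N : E) * s₂ = (N₁ : E) * ((N₂ : E) * s₂) := by rw [hN]; push_cast; ring
    rw [this]
    exact (isIntegral_natCast N₁).mul hi₂
  have hyint : ∀ j, J ≤ j → IsIntegral ℤ ((N : E) * y j) := by
    intro j hj
    apply IsIntegral.of_pow (n := 2) two_pos
    have : ((N : E) * y j) ^ 2 = ((N : E) * s₂) * ((j : E) ^ 2 * ((N : E) * s₂) + 4 * j * ((N : E) * s₁) + 16 * (N : E)) := by
      linear_combination -(N : E) ^ 2 * (hy j hj)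
    rw [this]
    have h4 : IsIntegral ℤ (4 : E) := by exact_mod_cast isIntegral_natCast (R := ℤ) (B := E) 4
    have h16 : IsIntegral ℤ (16 : E) := by exact_mod_cast isIntegral_natCast (R := ℤ) (B := E) 16
    exact k2.mul (((((isIntegral_natCast j).pow 2).mul k2).add ((h4.mul (isIntegral_natCast j)).mul k1)).add
      (h16.mul (isIntegral_natCast N)))
  -- the linear functions are large
  have hlarge : ∀ τ : E →+* ℂ, ∀ᶠ j : ℕ in atTop,
      4 * N * (‖16 * τ s₂ - 4 * τ s₁ ^ 2‖ + 1) ≤ ‖τ s₂ * (j : ℂ) + 2 * τ s₁‖ := by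
    intro τ
    have hs : 0 < ‖τ s₂‖ := norm_pos_iff.mpr ((map_ne_zero τ).mpr h2)
    have ht : Tendsto (fun j : ℕ => ‖τ s₂‖ * (j : ℝ)) atTop atTop :=
      tendsto_natCast_atTop_atTop.const_mul_atTop hs
    filter_upwards [ht.eventually_ge_atTop (4 * N * (‖16 * τ s₂ - 4 * τ s₁ ^ 2‖ + 1) + ‖2 * τ s₁‖)] with j hj
    have h3 := norm_sub_norm_le (τ s₂ * (j : ℂ)) (-(2 * τ s₁))
    rw [norm_mul, Complex.norm_natCast, norm_neg, sub_neg_eq_add] at h3
    linarith
  have hlarge' : ∀ᶠ j : ℕ in atTop, ∀ τ : E →+* ℂ,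
      4 * N * (‖16 * τ s₂ - 4 * τ s₁ ^ 2‖ + 1) ≤ ‖τ s₂ * (j : ℂ) + 2 * τ s₁‖ := eventually_all.mpr hlarge
  obtain ⟨J₁, hJ₁⟩ := eventually_atTop.mp hlarge'
  -- a monochromatic progression
  classical
  obtain ⟨J₂, hJ₂⟩ : ∃ J₂, J₂ = max J J₁ := ⟨_, rfl⟩
  obtain ⟨a, ha, b, c, hc⟩ := Combinatorics.exists_mono_homothetic_copy (M := ℕ) (κ := (E →+* ℂ) → Prop)
    {0, 1, 2} (fun n τ => ‖τ (y (J₂ + n)) - (τ s₂ * ((J₂ + n : ℕ) : ℂ) + 2 * τ s₁)‖ ≤
      ‖τ (y (J₂ + n)) + (τ s₂ * ((J₂ + n : ℕ) : ℂ) + 2 * τ s₁)‖)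
  have c0 := hc 0 (by simp)
  have c1 := hc 1 (by simp)
  have c2 := hc 2 (by simp)
  obtain ⟨x, hx⟩ : ∃ x, x = J₂ + b := ⟨_, rfl⟩
  have e0 : J₂ + (a • 0 + b) = x := by rw [hx]; simp
  have e1 : J₂ + (a • 1 + b) = x + a := by rw [hx]; simp; ring
  have e2 : J₂ + (a • 2 + b) = x + 2 * a := by rw [hx]; simp; ring
  have hxJ : J ≤ x := by omega
  have hxJ₁ : J₁ ≤ x := by omega
  have hδ : y x - 2 * y (x + a) + y (x + 2 * a) = 0 := by
    have hNE : (N : E) ≠ 0 := by exact_mod_cast hN0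
    have hzero : (N : E) * (y x - 2 * y (x + a) + y (x + 2 * a)) = 0 := by
      apply eq_zero_of_norm_lt_one
      · have : (N : E) * (y x - 2 * y (x + a) + y (x + 2 * a)) =
            (N : E) * y x - 2 * ((N : E) * y (x + a)) + (N : E) * y (x + 2 * a) := by ring
        rw [this]
        have h2' : IsIntegral ℤ (2 : E) := by exact_mod_cast isIntegral_natCast (R := ℤ) (B := E) 2
        exact ((hyint x hxJ).sub (h2'.mul (hyint (x + a) (by omega)))).add (hyint (x + 2 * a) (by omega))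
      · intro τ
        have hN' : (0 : ℝ) < N := by exact_mod_cast Nat.pos_of_ne_zero hN0
        obtain ⟨κ, hκ⟩ : ∃ κ, κ = ‖16 * τ s₂ - 4 * τ s₁ ^ 2‖ := ⟨_, rfl⟩
        have hκ0 : 0 ≤ κ := by rw [hκ]; exact norm_nonneg _
        have hL : 0 < 4 * N * (κ + 1) := by positivity
        have q0 := hJ₁ x hxJ₁ τ
        have q1 := hJ₁ (x + a) (by omega) τ
        have q2 := hJ₁ (x + 2 * a) (by omega) τ
        rw [← hκ] at q0 q1 q2
        have hyτ : ∀ j, J ≤ j → τ s₂ * ((j : ℂ) ^ 2 * τ s₂ + 4 * j * τ s₁ + 16) = τ (y j) * τ (y j) := by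
          intro j hj
          have := congrArg τ (hy j hj)
          simpa only [map_mul, map_add, map_pow, map_natCast, map_ofNat] using this
        have r0 := sqrt_close (hyτ x hxJ) hL q0
        have r1 := sqrt_close (hyτ (x + a) (by omega)) hL q1
        have r2 := sqrt_close (hyτ (x + 2 * a) (by omega)) hL q2
        rw [← hκ] at r0 r1 r2
        have hb : κ / (4 * N * (κ + 1)) < 1 / (4 * N) := by
          rw [div_lt_div_iff₀ hL (by positivity)]
          nlinarith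
        have s0 : (‖τ (y x) - (τ s₂ * (x : ℂ) + 2 * τ s₁)‖ ≤ ‖τ (y x) + (τ s₂ * (x : ℂ) + 2 * τ s₁)‖) = c τ := by
          have := congrFun c0 τ
          simp only [e0] at this
          exact this
        have s1 : (‖τ (y (x + a)) - (τ s₂ * ((x + a : ℕ) : ℂ) + 2 * τ s₁)‖ ≤
            ‖τ (y (x + a)) + (τ s₂ * ((x + a : ℕ) : ℂ) + 2 * τ s₁)‖) = c τ := by
          have := congrFun c1 τ
          simp only [e1] at this
          exact this
        have s2 : (‖τ (y (x + 2 * a)) - (τ s₂ * ((x + 2 * a : ℕ) : ℂ) + 2 * τ s₁)‖ ≤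
            ‖τ (y (x + 2 * a)) + (τ s₂ * ((x + 2 * a : ℕ) : ℂ) + 2 * τ s₁)‖) = c τ := by
          have := congrFun c2 τ
          simp only [e2] at this
          exact this
        have hfin : ∀ z₀ z₁ z₂ : ℂ, ‖z₀‖ ≤ κ / (4 * N * (κ + 1)) → ‖z₁‖ ≤ κ / (4 * N * (κ + 1)) →
            ‖z₂‖ ≤ κ / (4 * N * (κ + 1)) → ‖(N : ℂ) * (z₀ - 2 * z₁ + z₂)‖ < 1 := by
          intro z₀ z₁ z₂ h₀ h₁ h₂
          have t1 : ‖z₀ - 2 * z₁ + z₂‖ ≤ ‖z₀‖ + 2 * ‖z₁‖ + ‖z₂‖ := by
            refine (norm_add_le _ _).trans (add_le_add ((norm_sub_le _ _).trans (add_le_add le_rfl ?_)) le_rfl)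
            rw [norm_mul]
            simp
          rw [norm_mul, Complex.norm_natCast]
          have t2 : ‖z₀ - 2 * z₁ + z₂‖ < 1 / N := by
            have : 4 * (1 / (4 * (N : ℝ))) = 1 / N := by field_simp
            linarith
          calc (N : ℝ) * ‖z₀ - 2 * z₁ + z₂‖ < N * (1 / N) := mul_lt_mul_of_pos_left t2 hN'
            _ = 1 := by field_simp
        by_cases hcτ : c τ
        · rw [← s0] at hcτ
          have u0 := r0.1 hcτ
          rw [s0, ← s1] at hcτ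
          have u1 := r1.1 hcτ
          rw [s1, ← s2] at hcτ
          have u2 := r2.1 hcτ
          have := hfin _ _ _ u0 u1 u2
          convert this using 2
          push_cast
          simp only [map_mul, map_add, map_sub, map_natCast, map_ofNat]
          ring
        · rw [← s0] at hcτ
          have u0 := r0.2 hcτ
          rw [s0, ← s1] at hcτ
          have u1 := r1.2 hcτ
          rw [s1, ← s2] at hcτ
          have u2 := r2.2 hcτ
          have := hfin _ _ _ u0 u1 u2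
          convert this using 2
          push_cast
          simp only [map_mul, map_add, map_sub, map_natCast, map_ofNat]
          ring
    exact (mul_eq_zero.mp hzero).resolve_left hNE
  have ha' : (a : E) ≠ 0 := by exact_mod_cast ha.ne'
  have f0 := hy x hxJ
  have f1 := hy (x + a) (by omega)
  have f2 := hy (x + 2 * a) (by omega)
  push_cast at f0 f1 f2
  have := disc_eq_zero ha' f0 f1 f2 hδ
  rcases mul_eq_zero.mp this with h3 | h3
  · exact h2 (pow_eq_zero_iff two_ne_zero |>.mp h3)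
  · exact h (sub_eq_zero.mp h3)

end Pool.Agent.LCH
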