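import Pool.Agent.LCH.Lor

/-!
# LCH/Pair: the products `u ^ j v` of two unipotent isometries with different fixed points
-/

namespace Pool.Agent.LCH

variable {V : Type*} [AddCommGroup V] [Module ℝ V] {B : LinearMap.BilinForm ℝ V}

theorem uni_shift (hsym : ∀ x y, B x y = B y x) {e a : V} (hee : B e e = 0) (hae : B a e = 0) (c : ℝ) :
    uni B e (a + c • e) = uni B e a := by
  apply LinearMap.ext
  intro y
  simp only [uni_apply, map_add, map_smul, LinearMap.add_apply, LinearMap.smul_apply, smul_eq_mul, hee, hae]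
  rw [hsym e a, hae]
  module

theorem uni_scale (e a : V) {c : ℝ} (hc : c ≠ 0) : uni B (c • e) (c⁻¹ • a) = uni B e a := by
  apply LinearMap.ext
  intro y
  simp only [uni_apply, map_smul, LinearMap.smul_apply, smul_eq_mul, smul_smul]
  congr 1
  · congr 1
    · congr 2
      field_simp
    · congr 1
      field_simp
  · congr 1
    field_simp

theorem uni_mul (hsym : ∀ x y, B x y = B y x) {e a b : V} (hee : B e e = 0) (hae : B a e = 0) (hbe : B b e = 0) :
    uni B e a * uni B e b = uni B e (a + b) := by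
  apply LinearMap.ext
  intro y
  show uni B e a (uni B e b y) = _
  simp only [uni_apply, map_add, map_sub, map_smul, LinearMap.add_apply, LinearMap.sub_apply, LinearMap.smul_apply,
    smul_eq_mul, hee, hae, hbe]
  rw [hsym e a, hae, hsym b a]
  module

theorem uni_zero (e : V) : uni B e 0 = 1 := by
  apply LinearMap.ext
  intro y
  simp [uni_apply]

theorem uni_pow (hsym : ∀ x y, B x y = B y x) {e a : V} (hee : B e e = 0) (hae : B a e = 0) (j : ℕ) :
    uni B e a ^ j = uni B e ((j : ℝ) • a) := by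
  induction j with
  | zero => simp [uni_zero]
  | succ j ih =>
    rw [pow_succ, ih, uni_mul hsym hee (by simp [hae]) hae]
    congr 1
    push_cast
    module

theorem uni_conj {e a : V} {γ γ' : V →ₗ[ℝ] V} (hγ : ∀ x y, B (γ x) (γ y) = B x y) (h1 : γ * γ' = 1) :
    γ * uni B e a * γ' = uni B (γ e) (γ a) := by
  apply LinearMap.ext
  intro y
  have hy : γ (γ' y) = y := by
    have := congrArg (fun f => f y) h1
    exact this
  show γ (uni B e a (γ' y)) = _
  have k1 : B (γ' y) e = B y (γ e) := by rw [← hγ, hy]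
  have k2 : B (γ' y) a = B y (γ a) := by rw [← hγ, hy]
  rw [uni_apply, uni_apply, k1, k2, hγ a a]
  simp only [map_add, map_sub, map_smul, hy]

/-- A normalized pair: `e`, `f` isotropic with `B e f = -1`, and `a`, `b` orthogonal to both. -/
structure Pair (B : LinearMap.BilinForm ℝ V) (e f a b : V) : Prop where
  ee : B e e = 0
  ff : B f f = 0
  ef : B e f = -1
  ae : B a e = 0
  af : B a f = 0
  be : B b e = 0
  bf : B b f = 0
  aa : 0 < B a a
  bb : 0 < B b b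
  cs : B a b ^ 2 ≤ B a a * B b b

theorem exists_pair (hB : Lorentz B) {u γ γ' : V →ₗ[ℝ] V} {e a : V} (he : e ≠ 0) (hee : B e e = 0) (hae : B a e = 0)
    (haa : 0 < B a a) (hu : u = uni B e a) (hγ : ∀ x y, B (γ x) (γ y) = B x y) (h1 : γ * γ' = 1) (h2 : γ' * γ = 1)
    (hne : ∀ c : ℝ, γ e ≠ c • e) : ∃ e₁ f₁ a₁ b₁ : V, Pair B e₁ f₁ a₁ b₁ ∧ u = uni B e₁ a₁ ∧
      γ * u * γ' = uni B f₁ b₁ := by
  have hsym := hB.symm
  have hff : B (γ e) (γ e) = 0 := by rw [hγ, hee]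
  have hfe : B (γ e) e ≠ 0 := hB.ne_zero he hee hff hne
  obtain ⟨c, hc⟩ : ∃ c, c = -(B (γ e) e)⁻¹ := ⟨_, rfl⟩
  have hc0 : c ≠ 0 := by rw [hc]; exact neg_ne_zero.mpr (inv_ne_zero hfe)
  obtain ⟨f, hf⟩ : ∃ f, f = c • γ e := ⟨_, rfl⟩
  obtain ⟨b, hb⟩ : ∃ b, b = c⁻¹ • γ a := ⟨_, rfl⟩
  have hv : γ * u * γ' = uni B f b := by
    rw [hu, uni_conj hγ h1, hf, hb, uni_scale _ _ hc0]
  have hffs : B f f = 0 := by rw [hf]; simp [hff]
  have hef : B e f = -1 := by
    rw [hf, map_smul, smul_eq_mul, hsym e (γ e), hc]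
    field_simp
  have hbf : B b f = 0 := by
    rw [hb, hf]
    simp [hγ, hae]
  have hbb : 0 < B b b := by
    rw [hb]
    simp only [map_smul, LinearMap.smul_apply, smul_eq_mul, hγ]
    have : 0 < c⁻¹ * c⁻¹ := by
      rw [← pow_two]
      exact sq_pos_of_ne_zero (inv_ne_zero hc0)
    rw [← mul_assoc]
    positivity
  -- make `a` orthogonal to `f` and `b` orthogonal to `e`
  obtain ⟨a₁, ha₁⟩ : ∃ a₁, a₁ = a + (B a f) • e := ⟨_, rfl⟩
  obtain ⟨b₁, hb₁⟩ : ∃ b₁, b₁ = b + (B b e) • f := ⟨_, rfl⟩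
  have hfe' : B f e = -1 := by rw [hsym, hef]
  have q1 : B a₁ e = 0 := by rw [ha₁]; simp [hae, hee]
  have q2 : B a₁ f = 0 := by rw [ha₁]; simp [hef]
  have q3 : B b₁ e = 0 := by rw [hb₁]; simp [hfe']
  have q4 : B b₁ f = 0 := by rw [hb₁]; simp [hbf, hffs]
  have q5 : B a₁ a₁ = B a a := by
    rw [ha₁]
    simp only [map_add, map_smul, LinearMap.add_apply, LinearMap.smul_apply, smul_eq_mul, hae, hee, hsym e a]
    ring
  have q6 : B b₁ b₁ = B b b := by
    rw [hb₁]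
    simp only [map_add, map_smul, LinearMap.add_apply, LinearMap.smul_apply, smul_eq_mul, hbf, hffs, hsym f b]
    ring
  -- Cauchy-Schwarz
  have hcs : B a₁ b₁ ^ 2 ≤ B a₁ a₁ * B b₁ b₁ := by
    have hpos : ∀ t : ℝ, 0 ≤ B (a₁ + t • b₁) (a₁ + t • b₁) := by
      intro t
      exact (hB.nonneg he hee (by simp [q1, q3])).1
    have h3 := hpos (-(B a₁ b₁) / B b₁ b₁)
    have hb0 : 0 < B b₁ b₁ := by rw [q6]; exact hbb
    simp only [map_add, map_smul, LinearMap.add_apply, LinearMap.smul_apply, smul_eq_mul, hsym b₁ a₁] at h3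
    have h4 : B a₁ a₁ + -(B a₁ b₁) / B b₁ b₁ * B a₁ b₁ + (-(B a₁ b₁) / B b₁ b₁ * B a₁ b₁ +
        -(B a₁ b₁) / B b₁ b₁ * (-(B a₁ b₁) / B b₁ b₁ * B b₁ b₁)) = (B a₁ a₁ * B b₁ b₁ - B a₁ b₁ ^ 2) / B b₁ b₁ := by
      field_simp
      ring
    have h5 : 0 ≤ (B a₁ a₁ * B b₁ b₁ - B a₁ b₁ ^ 2) / B b₁ b₁ := by
      rw [← h4]
      linarith
    have h6 := (div_nonneg_iff.mp h5)
    rcases h6 with h7 | h7
    · linarith [h7.1]
    · linarith [h7.2]
  refine ⟨e, f, a₁, b₁, ⟨hee, hffs, hef, q1, q2, q3, q4, by rw [q5]; exact haa, by rw [q6]; exact hbb, hcs⟩, ?_, ?_⟩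
  · rw [hu, ha₁, uni_shift hsym hee hae]
  · rw [hv, hb₁, uni_shift hsym hffs hbf]

/-- An eigenvector of `u ^ j v`. -/
theorem exists_eigenvector (hsym : ∀ x y, B x y = B y x) {e f a b : V} (h : Pair B e f a b) (j : ℝ) {R : ℝ}
    (hR : ((1 - R) ^ 2 - j * B a b * R) ^ 2 = 1 / 4 * j ^ 2 * (B a a * B b b) * R * (1 + R) ^ 2)
    (hR1 : R ^ 2 ≠ 1) : ∃ y : V, y ≠ 0 ∧ uni B e (j • a) (uni B f b y) = R • y := by
  obtain ⟨A, hA⟩ : ∃ A, A = B a a := ⟨_, rfl⟩
  obtain ⟨D, hD⟩ : ∃ D, D = B b b := ⟨_, rfl⟩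
  obtain ⟨C, hC⟩ : ∃ C, C = B a b := ⟨_, rfl⟩
  rw [← hA, ← hD, ← hC] at hR
  have hfe : B f e = -1 := by rw [hsym, h.ef]
  have hea : B e a = 0 := by rw [hsym, h.ae]
  have hfa : B f a = 0 := by rw [hsym, h.af]
  have heb : B e b = 0 := by rw [hsym, h.be]
  have hfb : B f b = 0 := by rw [hsym, h.bf]
  have hba : B b a = C := by rw [hsym, hC]
  obtain ⟨s, hs⟩ : ∃ s, s = 1 / 2 * D * (1 + R) := ⟨_, rfl⟩
  obtain ⟨t, ht⟩ : ∃ t, t = (1 - R) ^ 2 - j * C * R := ⟨_, rfl⟩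
  refine ⟨((1 - R) * t) • e + ((1 - R) * s) • f + (j * R * s) • a + t • b, ?_, ?_⟩
  · intro h0
    have h1 := congrArg (fun y => B y e) h0
    simp only [map_add, map_smul, LinearMap.add_apply, LinearMap.smul_apply, smul_eq_mul, h.ee, hfe, h.ae, h.be,
      map_zero, LinearMap.zero_apply] at h1
    have hD0 : 0 < D := by rw [hD]; exact h.bb
    have h2 : D * (R ^ 2 - 1) = 0 := by
      rw [hs] at h1
      linear_combination 2 * h1
    rcases mul_eq_zero.mp h2 with h3 | h3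
    · linarith
    · exact hR1 (by linarith)
  · have hv : ∀ x₁ x₂ x₃ x₄ : ℝ, uni B f b (x₁ • e + x₂ • f + x₃ • a + x₄ • b) =
        x₁ • e + (1 / 2 * D * x₁ + x₂ - C * x₃ - D * x₄) • f + x₃ • a + (x₄ - x₁) • b := by
      intro x₁ x₂ x₃ x₄
      simp only [uni_apply, map_add, map_smul, LinearMap.add_apply, LinearMap.smul_apply, smul_eq_mul, h.ff, h.ef,
        h.af, h.bf, heb, hfb, ← hD, ← hC]
      module
    have hu : ∀ x₁ x₂ x₃ x₄ : ℝ, uni B e (j • a) (x₁ • e + x₂ • f + x₃ • a + x₄ • b) =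
        (x₁ + 1 / 2 * j ^ 2 * A * x₂ - j * A * x₃ - j * C * x₄) • e + x₂ • f + (x₃ - j * x₂) • a + x₄ • b := by
      intro x₁ x₂ x₃ x₄
      simp only [uni_apply, map_add, map_smul, LinearMap.add_apply, LinearMap.smul_apply, smul_eq_mul, h.ee, hfe,
        h.ae, h.be, hea, hfa, hba, ← hA]
      module
    rw [hv, hu]
    have c1 : (1 - R) * t + 1 / 2 * j ^ 2 * A * (1 / 2 * D * ((1 - R) * t) + (1 - R) * s - C * (j * R * s) - D * t) -
        j * A * (j * R * s) - j * C * (t - (1 - R) * t) = R * ((1 - R) * t) := by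
      rw [hs, ht]
      linear_combination hR
    have c2 : 1 / 2 * D * ((1 - R) * t) + (1 - R) * s - C * (j * R * s) - D * t = R * ((1 - R) * s) := by
      rw [hs, ht]
      ring
    have c3 : j * R * s - j * (1 / 2 * D * ((1 - R) * t) + (1 - R) * s - C * (j * R * s) - D * t) =
        R * (j * R * s) := by
      rw [c2]
      ring
    have c4 : t - (1 - R) * t = R * t := by ring
    rw [c1, c3, c2, c4]
    module

end Pool.Agent.LCH
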