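import Pool.Agent.LCH.Core
import Pool.Agent.LCH.Pair

/-!
# LCH/RealG: groups of isometries of a real hyperbolic space
-/

namespace Pool.Agent.LCH

open LinearEquiv

/-- No point of the boundary is fixed by `Γ`. -/
def NoBdFix {𝕜 : Type*} [RCLike 𝕜] {V : Type*} [AddCommGroup V] [Module 𝕜 V] (h : V → V → 𝕜)
    (Γ : Subgroup (V ≃ₗ[𝕜] V)) : Prop :=
  ∀ e : V, e ≠ 0 → h e e = 0 → ∃ γ ∈ Γ, ∀ c : 𝕜, γ e ≠ c • e

/-- The elements of `Γ` as maps. -/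
def maps {𝕜 : Type*} [RCLike 𝕜] {V : Type*} [AddCommGroup V] [Module 𝕜 V]
    (Γ : Subgroup (V ≃ₗ[𝕜] V)) : Set (V → V) := {g | ∃ γ ∈ Γ, g = fun x => γ x}

theorem real_case {L A : Type*} [Field L] [NumberField L] [Field A] [Algebra L A] [Algebra.IsAlgebraic L A]
    [IsAlgClosed A] {I : Type*} [Finite I] (ψ : A →+* ℂ) (σ : I → L →+* ℂ) {κ : ℝ} (hκ0 : 0 ≤ κ) (hκ : κ < 1)
    {V : Type*} [AddCommGroup V] [Module ℝ V] {h : V → V → ℝ}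
    (hh : HForm h) {Γ : Subgroup (V ≃ₗ[ℝ] V)} (hΓ : ∀ γ ∈ Γ, ∀ x y, h (γ x) (γ y) = h x y) (hfix : NoBdFix h Γ)
    (H : ∀ ℓ ∈ hlens h (maps Γ), ∃ i, Contr ψ (σ i) κ (Real.exp ℓ)) {u : V ≃ₗ[ℝ] V} (hu : u ∈ Γ)
    (hn : IsNilpotent ((u : V →ₗ[ℝ] V) - 1)) : u = 1 := by
  by_contra hu1
  let B : LinearMap.BilinForm ℝ V := LinearMap.mk₂ ℝ h (fun x y z => hh.add_left x y z)
    (fun c x y => by rw [hh.smul_left, star_trivial, smul_eq_mul]) hh.add (fun c x y => hh.smul c x y)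
  have hBh : ∀ x y, B x y = h x y := fun _ _ => rfl
  have hB : Lorentz B := by
    refine ⟨fun x y => ?_, ?_⟩
    · rw [hBh, hBh, hh.symm y x, star_trivial]
    · obtain ⟨t, ht, hpos⟩ := hh.neg
      refine ⟨t, ht, fun y hy hy0 => hpos y ?_ hy0⟩
      rw [hh.symm y t, ← hBh, hy, star_zero]
  have hθ : ∀ γ ∈ Γ, ∀ x y, B ((γ : V →ₗ[ℝ] V) x) ((γ : V →ₗ[ℝ] V) y) = B x y := fun γ hγ x y => hΓ γ hγ x y
  obtain ⟨e, a, he, hee, hae, haa, huu⟩ := exists_uni hB (hθ u hu) hn (by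
    intro h0
    apply hu1
    ext x
    exact congrArg (fun f : V →ₗ[ℝ] V => f x) h0)
  obtain ⟨γ, hγ, hγe⟩ := hfix e he hee
  obtain ⟨e₁, f₁, a₁, b₁, hP, hu₁, hv₁⟩ := exists_pair (γ := (γ : V →ₗ[ℝ] V)) (γ' := ((γ⁻¹ : V ≃ₗ[ℝ] V) : V →ₗ[ℝ] V))
    hB he hee hae haa huu (hθ γ hγ) (by ext x; exact γ.apply_symm_apply x) (by ext x; exact γ.symm_apply_apply x) hγe
  have hpos : 0 < 1 / 4 * (B a₁ a₁ * B b₁ b₁) := by
    have := hP.aa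
    have := hP.bb
    positivity
  have hcs : B a₁ b₁ ^ 2 ≤ 4 * (1 / 4 * (B a₁ a₁ * B b₁ b₁)) := by
    have := hP.cs
    linarith
  obtain ⟨J, hJ⟩ : ∃ J : ℕ, ∀ j : ℕ, J ≤ j → 4 < j * √(1 / 4 * (B a₁ a₁ * B b₁ b₁)) := by
    obtain ⟨K, hK⟩ := exists_nat_gt (4 / √(1 / 4 * (B a₁ a₁ * B b₁ b₁)))
    refine ⟨K, fun j hj => ?_⟩
    have : (K : ℝ) ≤ j := by exact_mod_cast hj
    rw [← div_lt_iff₀ (Real.sqrt_pos.mpr hpos)]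
    linarith
  refine core ψ σ hκ0 hκ hpos hcs J (fun j hj => ?_)
  obtain ⟨R, hR, hRY⟩ := exists_R (Yf_gt hpos hcs (Nat.cast_nonneg j) (hJ j hj))
  have hR0 : R ≠ 0 := by linarith
  suffices hmem : Real.log R ∈ hlens h (maps Γ) by
    obtain ⟨i, hi⟩ := H _ hmem
    rw [Real.exp_log (by linarith)] at hi
    refine ⟨i, ?_⟩
    rw [← hRY]
    exact hi.bdd hκ0 hR
  have hYf := Yf_eq hpos hcs (Nat.cast_nonneg j)
  have h1 := eig_eq hR0 (by rw [hRY]; exact hYf)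
  have h2 := eig_eq (inv_ne_zero hR0) (by rw [inv_inv, add_comm, hRY]; exact hYf)
  have hRi : R⁻¹ < 1 := inv_lt_one_of_one_lt₀ hR
  have hRp : 0 < R⁻¹ := inv_pos.mpr (by linarith)
  obtain ⟨y₁, hy₁, e₁'⟩ := exists_eigenvector hB.symm hP (j : ℝ) (R := R) (by linear_combination h1) (by nlinarith)
  obtain ⟨y₂, hy₂, e₂'⟩ := exists_eigenvector hB.symm hP (j : ℝ) (R := R⁻¹) (by linear_combination h2) (by nlinarith)
  obtain ⟨g, hg⟩ : ∃ g, g = u ^ j * (γ * u * γ⁻¹) := ⟨_, rfl⟩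
  have hgΓ : g ∈ Γ := by
    rw [hg]
    exact Γ.mul_mem (Γ.pow_mem hu j) (Γ.mul_mem (Γ.mul_mem hγ hu) (Γ.inv_mem hγ))
  have hgy : ∀ y, g y = uni B e₁ ((j : ℝ) • a₁) (uni B f₁ b₁ y) := by
    intro y
    have k1 : ((u ^ j : V ≃ₗ[ℝ] V) : V →ₗ[ℝ] V) = (u : V →ₗ[ℝ] V) ^ j :=
      map_pow (LinearEquiv.automorphismGroup.toLinearMapMonoidHom (R := ℝ) (M := V)) u j
    rw [← uni_pow hB.symm hP.ee hP.ae, ← hu₁, ← k1, ← hv₁, hg]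
    rfl
  have hgm : ((g : V →ₗ[ℝ] V) : V → V) ∈ maps Γ := ⟨g, hgΓ, rfl⟩
  refine hh.mem_hlens hgm (hΓ g hgΓ) hR hy₁ hy₂ ?_ ?_
  · show g y₁ = _
    rw [hgy, e₁']
    rfl
  · show g y₂ = _
    rw [hgy, e₂']
    rfl

end Pool.Agent.LCH
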